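import Pool.Agent.Helper42.SQ.ABSg
import Mathlib.GroupTheory.IsSubnormal

/-!
# SQ, stage 6, block ALG: Theorem A for a subnormal subgroup
-/

set_option autoImplicit false

namespace Pool.Agent.SQ

open Module

universe u


section

variable {k K : Type u} [Field k] [Field K] [Algebra k K]

private theorem RV_scale {ω : K → ℝ} (h : RV k ω) {t : ℝ} (ht : 0 < t) : RV k fun x => ω x / t where
  mul := fun x y hx hy => by rw [h.mul x y hx hy, add_div]
  add := fun x y hx hy hxy => by
    rw [min_div_div_right ht.le]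
    exact div_le_div_of_nonneg_right (h.add x y hx hy hxy) ht.le
  alg := fun c hc => by rw [h.alg c hc, zero_div]

/-- `thm_g` with a constant -/
private theorem thm_k {G : Type*} [Group G] [Fintype G] (s : G →* (K ≃ₐ[k] K)) [CharZero k] {P : Type*} [Fintype P]
    (ω : P → K → ℝ) (hω : ∀ v, RV k (ω v)) (c : P → G → ℝ)
    (V : Submodule k K) [FiniteDimensional k V] (ha : ∀ v g, ∀ x ∈ V, x ≠ 0 → 0 ≤ ω v (s g x) + c v g) {κ : ℝ} (hκ : 0 < κ)
    (hS : ∀ (m : ℕ) (E : Submodule k K), E ≤ (∏ g, V.map (s g).toLinearMap) ^ m → (∀ z ∈ E, ∀ g, s g z = z) →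
      ∀ (n : P → ℕ) (z : ∀ v, Fin (n v) → K), (∀ v, LinearIndependent k (z v)) → (∀ v i, z v i ∈ E) →
        ∑ v, ∑ i, (ω v (z v i) + m * ∑ g, c v g) ≤ κ * m * finrank k E)
    (n : P → G → ℕ) (e : ∀ v g, Fin (n v g) → K) (he : ∀ v g, LinearIndependent k (e v g)) (heV : ∀ v g i, e v g i ∈ V) :
    ∑ v, ∑ g, ∑ i, (ω v (s g (e v g i)) + c v g) ≤ Fintype.card G * κ * finrank k V := by
  have h1 := thm_g s (fun v x => ω v x / κ) (fun v => RV_scale (hω v) hκ) (fun v g => c v g / κ) V
    (fun v g x hx hx0 => by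
      rw [← add_div]
      exact div_nonneg (ha v g x hx hx0) hκ.le)
    (fun m E hE hEs n z hz hzE => by
      have h2 := hS m E hE hEs n z hz hzE
      have h3 : ∑ v, ∑ i, (ω v (z v i) / κ + m * ∑ g, c v g / κ) = (∑ v, ∑ i, (ω v (z v i) + m * ∑ g, c v g)) / κ := by
        rw [Finset.sum_div]
        refine Finset.sum_congr rfl fun v _ => ?_
        rw [Finset.sum_div]
        refine Finset.sum_congr rfl fun i _ => ?_
        rw [← Finset.sum_div]
        ring
      rw [h3, div_le_iff₀ hκ]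
      linarith)
    n e he heV
  have h3 : ∑ v, ∑ g, ∑ i, (ω v (s g (e v g i)) / κ + c v g / κ) = (∑ v, ∑ g, ∑ i, (ω v (s g (e v g i)) + c v g)) / κ := by
    rw [Finset.sum_div]
    refine Finset.sum_congr rfl fun v _ => ?_
    rw [Finset.sum_div]
    refine Finset.sum_congr rfl fun g _ => ?_
    rw [Finset.sum_div]
    exact Finset.sum_congr rfl fun i _ => (add_div _ _ _).symm
  rw [h3, div_le_iff₀ hκ] at h1
  linarith

variable {G : Type} [Group G] (s : G →* (K ≃ₐ[k] K))

/-- the statement of the theorem for `H` -/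
private def TB [Fintype G] (H : Subgroup G) [Fintype (G ⧸ H)] : Prop :=
  ∀ (P : Type u) [Fintype P] (ω : P → K → ℝ) (_ : ∀ v, RV k (ω v)) (c : P → G → ℝ)
    (_ : ∀ v g, ∀ h ∈ H, c v (g * h) = c v g) (V : Submodule k K) (_ : FiniteDimensional k V)
    (_ : ∀ x ∈ V, ∀ h ∈ H, s h x = x) (_ : ∀ v g, ∀ x ∈ V, x ≠ 0 → 0 ≤ ω v (s g x) + c v g) (κ : ℝ) (_ : 0 < κ)
    (_ : ∀ (m : ℕ) (E : Submodule k K), E ≤ (∏ q : G ⧸ H, V.map (s q.out).toLinearMap) ^ m → (∀ z ∈ E, ∀ g, s g z = z) →
      ∀ (n : P → ℕ) (z : ∀ v, Fin (n v) → K), (∀ v, LinearIndependent k (z v)) → (∀ v i, z v i ∈ E) →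
        ∑ v, ∑ i, (ω v (z v i) + m * ∑ q : G ⧸ H, c v q.out) ≤ κ * m * finrank k E)
    (n : P → G ⧸ H → ℕ) (e : ∀ v q, Fin (n v q) → K) (_ : ∀ v q, LinearIndependent k (e v q)) (_ : ∀ v q i, e v q i ∈ V),
    ∑ v, ∑ q, ∑ i, (ω v (s q.out (e v q i)) + c v q.out) ≤ Fintype.card (G ⧸ H) * κ * finrank k V

private theorem map_eq27 {H : Subgroup G} {V : Submodule k K} (hV : ∀ x ∈ V, ∀ h ∈ H, s h x = x) {g g' : G}
    (hg : (g : G ⧸ H) = (g' : G ⧸ H)) : ∀ x ∈ V, s g x = s g' x := by
  intro x hx
  have h1 : g⁻¹ * g' ∈ H := QuotientGroup.eq.1 hg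
  have h2 : g' = g * (g⁻¹ * g') := by group
  rw [h2, map_mul]
  show s g x = s g (s (g⁻¹ * g') x)
  rw [hV x hx _ h1]

private theorem map_eq27' {H : Subgroup G} {V : Submodule k K} (hV : ∀ x ∈ V, ∀ h ∈ H, s h x = x) {g g' : G}
    (hg : (g : G ⧸ H) = (g' : G ⧸ H)) : V.map (s g).toLinearMap = V.map (s g').toLinearMap := by
  apply le_antisymm
  · rintro _ ⟨x, hx, rfl⟩
    exact ⟨x, hx, (map_eq27 s hV hg x hx).symm⟩
  · rintro _ ⟨x, hx, rfl⟩
    exact ⟨x, hx, map_eq27 s hV hg x hx⟩

private theorem TB_top [Fintype G] [Fintype (G ⧸ (⊤ : Subgroup G))] : TB s (⊤ : Subgroup G) := by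
  intro P _ ω hω c hc V hfd hV ha κ hκ hS n e he heV
  have hsub : Subsingleton (G ⧸ (⊤ : Subgroup G)) := ⟨fun a b => by
    induction a using QuotientGroup.induction_on
    induction b using QuotientGroup.induction_on
    rw [QuotientGroup.eq]
    exact Subgroup.mem_top _⟩
  have hfix : ∀ x ∈ V, ∀ g, s g x = x := fun x hx g => hV x hx g (Subgroup.mem_top _)
  have hVm : ∀ g, V.map (s g).toLinearMap = V := fun g => by
    apply le_antisymm
    · rintro _ ⟨x, hx, rfl⟩
      show s g x ∈ V
      rw [hfix x hx]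
      exact hx
    · intro x hx
      exact ⟨x, hx, hfix x hx g⟩
  obtain ⟨q0, hq0⟩ : ∃ q0 : G ⧸ (⊤ : Subgroup G), ∀ q, q = q0 := ⟨((1 : G) : G ⧸ (⊤ : Subgroup G)), fun _ => Subsingleton.elim _ _⟩
  have huniv : (Finset.univ : Finset (G ⧸ (⊤ : Subgroup G))) = {q0} := by
    ext q
    simp [hq0 q]
  have h1 := hS 1 V (by
    rw [pow_one, huniv, Finset.prod_singleton, hVm]) (fun z hz g => hfix z hz g) (fun v => n v q0) (fun v => e v q0)
    (fun v => he v q0) (fun v i => heV v q0 i)
  have hcard : Fintype.card (G ⧸ (⊤ : Subgroup G)) = 1 := by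
    rw [← Finset.card_univ, huniv, Finset.card_singleton]
  rw [hcard, huniv]
  rw [huniv] at h1
  simp only [Finset.sum_singleton, Nat.cast_one, one_mul, mul_one] at h1 ⊢
  refine le_trans (le_of_eq ?_) h1
  refine Finset.sum_congr rfl fun v _ => Finset.sum_congr rfl fun i _ => ?_
  rw [hfix _ (heV v q0 i)]


private theorem ss27 (a b : G) (x : K) : s a (s b x) = s (a * b) x := by
  rw [map_mul]
  rfl

/-- the field of the elements fixed by `B` -/
private def fixF27 (B : Subgroup G) : IntermediateField k K where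
  carrier := {x | ∀ h ∈ B, s h x = x}
  mul_mem' := fun {x y} hx hy h hh => by rw [map_mul, hx h hh, hy h hh]
  add_mem' := fun {x y} hx hy h hh => by rw [map_add, hx h hh, hy h hh]
  algebraMap_mem' := fun c h _ => (s h).commutes c
  inv_mem' := fun x hx h hh => by rw [map_inv₀, hx h hh]

private theorem norm27 {A B : Subgroup G} (hn : (B.subgroupOf A).Normal) (hBA : B ≤ A) {g h : G} (hg : g ∈ A) (hh : h ∈ B) :
    g⁻¹ * h * g ∈ B := by
  have h1 := hn.conj_mem ⟨h, hBA hh⟩ (by rw [Subgroup.mem_subgroupOf]; exact hh) (⟨g, hg⟩⁻¹ : A)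
  rw [Subgroup.mem_subgroupOf] at h1
  simpa using h1

private theorem fix_mem27 {A B : Subgroup G} (hn : (B.subgroupOf A).Normal) (hBA : B ≤ A) {g : G} (hg : g ∈ A) {x : K}
    (hx : x ∈ fixF27 s B) : s g x ∈ fixF27 s B := by
  intro h hh
  have h1 : s h (s g x) = s g (s (g⁻¹ * h * g) x) := by
    have e : h * g = g * (g⁻¹ * h * g) := by group
    rw [ss27, ss27, e]
  rw [h1, hx _ (norm27 hn hBA hg hh)]

/-- the action of `A` on the invariants of `B` -/
private def act27 {A B : Subgroup G} (hn : (B.subgroupOf A).Normal) (hBA : B ≤ A) :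
    A →* (fixF27 s B ≃ₐ[k] fixF27 s B) where
  toFun g :=
    { toFun := fun x => ⟨s g x, fix_mem27 s hn hBA g.2 x.2⟩
      invFun := fun x => ⟨s (g⁻¹ : A) x, fix_mem27 s hn hBA (g⁻¹).2 x.2⟩
      left_inv := fun x => Subtype.ext (by
        show s ((g⁻¹ : A) : G) (s g x) = x
        have e : s ((g⁻¹ : A) : G) (s g x) = s (((g⁻¹ : A) : G) * g) (x : K) := by rw [map_mul]; rfl
        rw [e, Subgroup.coe_inv, inv_mul_cancel, map_one]; rfl)
      right_inv := fun x => Subtype.ext (by
        show s g (s ((g⁻¹ : A) : G) x) = x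
        have e : s g (s ((g⁻¹ : A) : G) x) = s ((g : G) * ((g⁻¹ : A) : G)) (x : K) := by rw [map_mul]; rfl
        rw [e, Subgroup.coe_inv, mul_inv_cancel, map_one]; rfl)
      map_mul' := fun x y => Subtype.ext (map_mul (s g) (x : K) (y : K))
      map_add' := fun x y => Subtype.ext (map_add (s g) (x : K) (y : K))
      commutes' := fun c => Subtype.ext ((s g).commutes c) }
  map_one' := by
    ext x
    show s ((1 : A) : G) (x : K) = x
    rw [Subgroup.coe_one, map_one]
    rfl
  map_mul' g h := by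
    ext x
    show s ((g * h : A) : G) (x : K) = s g (s h x)
    rw [Subgroup.coe_mul, map_mul]
    rfl

private theorem act27_apply {A B : Subgroup G} (hn : (B.subgroupOf A).Normal) (hBA : B ≤ A) (g : A) (x : fixF27 s B) :
    (act27 s hn hBA g x : K) = s g x := rfl

/-- the action of `A ⧸ B` on the invariants of `B` -/
private def sig27 {A B : Subgroup G} (hn : (B.subgroupOf A).Normal) (hBA : B ≤ A) :
    (A ⧸ B.subgroupOf A) →* (fixF27 s B ≃ₐ[k] fixF27 s B) :=
  QuotientGroup.lift (B.subgroupOf A) (act27 s hn hBA) fun g hg => by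
    ext x
    rw [act27_apply]
    exact x.2 g (Subgroup.mem_subgroupOf.1 hg)

private theorem sig27_mk {A B : Subgroup G} (hn : (B.subgroupOf A).Normal) (hBA : B ≤ A) (g : A) (x : fixF27 s B) :
    (sig27 s hn hBA (g : A ⧸ B.subgroupOf A) x : K) = s g x := rfl

private theorem sig27_out {A B : Subgroup G} (hn : (B.subgroupOf A).Normal) (hBA : B ≤ A) (γ : A ⧸ B.subgroupOf A)
    (x : fixF27 s B) : (sig27 s hn hBA γ x : K) = s (γ.out : A) x := by
  conv_lhs => rw [← QuotientGroup.out_eq' γ]
  exact sig27_mk s hn hBA _ x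

private theorem equiv27 {A B : Subgroup G} (hBA : B ≤ A) (q : G ⧸ A) (γ : A ⧸ B.subgroupOf A) :
    (Subgroup.quotientEquivProdOfLE hBA).symm (q, γ) = ((q.out * (γ.out : A) : G) : G ⧸ B) := by
  conv_lhs => rw [← QuotientGroup.out_eq' γ]
  rfl

/-! levels -/

private theorem lev_mul27 {ω : K → ℝ} (h : RV k ω) (a b : ℝ) : lev h a * lev h b ≤ lev h (a + b) := by
  rw [Submodule.mul_le]
  intro x hx y hy
  rcases hx with rfl | hx
  · rw [zero_mul]; exact Submodule.zero_mem _
  rcases hy with rfl | hy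
  · rw [mul_zero]; exact Submodule.zero_mem _
  by_cases hx0 : x = 0
  · subst hx0; rw [zero_mul]; exact Submodule.zero_mem _
  by_cases hy0 : y = 0
  · subst hy0; rw [mul_zero]; exact Submodule.zero_mem _
  right
  rw [h.mul x y hx0 hy0]
  exact add_le_add hx hy

private theorem one_lev27 {ω : K → ℝ} (h : RV k ω) : (1 : Submodule k K) ≤ lev h 0 := by
  intro x hx
  obtain ⟨r, rfl⟩ := Submodule.mem_one.1 hx
  by_cases hr : r = 0
  · left; rw [hr, map_zero]
  · right; rw [h.alg r hr]

private theorem lev_prod27 {ω : K → ℝ} (h : RV k ω) {α : Type*} (S : Finset α) (W : α → Submodule k K) (c : α → ℝ)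
    (hW : ∀ a ∈ S, W a ≤ lev h (-c a)) : ∏ a ∈ S, W a ≤ lev h (-∑ a ∈ S, c a) := by
  classical
  induction S using Finset.induction_on with
  | empty => rw [Finset.prod_empty, Finset.sum_empty, neg_zero]; exact one_lev27 h
  | insert a S ha ih =>
    rw [Finset.prod_insert ha, Finset.sum_insert ha]
    refine (mul_le_mul' (hW a (Finset.mem_insert_self _ _)) (ih fun b hb => hW b (Finset.mem_insert_of_mem hb))).trans ?_
    refine (lev_mul27 h _ _).trans (le_of_eq ?_)
    congr 1
    ring

private theorem lev_pow27 {ω : K → ℝ} (h : RV k ω) {W : Submodule k K} {c : ℝ} (hW : W ≤ lev h (-c)) (m : ℕ) :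
    W ^ m ≤ lev h (-(m * c)) := by
  have h1 := lev_prod27 h (Finset.range m) (fun _ => W) (fun _ => c) (fun _ _ => hW)
  rwa [Finset.prod_const, Finset.sum_const, Finset.card_range, nsmul_eq_mul] at h1

private theorem map_prod27 {A B : Type u} [Field A] [Field B] [Algebra k A] [Algebra k B] (f : A →ₐ[k] B) {α : Type*}
    (S : Finset α) (W : α → Submodule k A) :
    (∏ a ∈ S, W a).map f.toLinearMap = ∏ a ∈ S, (W a).map f.toLinearMap :=
  map_prod (Submodule.mapHom f) W S

private theorem map_pow27 {A B : Type u} [Field A] [Field B] [Algebra k A] [Algebra k B] (f : A →ₐ[k] B)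
    (W : Submodule k A) (m : ℕ) : (W ^ m).map f.toLinearMap = (W.map f.toLinearMap) ^ m :=
  map_pow (Submodule.mapHom f) W m


private theorem prod_mono27 {α : Type*} (S : Finset α) (W W' : α → Submodule k K) (h : ∀ a ∈ S, W a ≤ W' a) :
    ∏ a ∈ S, W a ≤ ∏ a ∈ S, W' a := by
  classical
  induction S using Finset.induction_on with
  | empty => rw [Finset.prod_empty, Finset.prod_empty]
  | insert a S ha ih =>
    rw [Finset.prod_insert ha, Finset.prod_insert ha]
    exact mul_le_mul' (h a (Finset.mem_insert_self _ _)) (ih fun b hb => h b (Finset.mem_insert_of_mem hb))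

private theorem TB_step [CharZero k] [Fintype G] {A B : Subgroup G} (hn : (B.subgroupOf A).Normal) (hBA : B ≤ A)
    [Fintype (G ⧸ A)] [Fintype (G ⧸ B)] (hA : TB s A) : TB s B := by
  classical
  intro P _ ω hω c hc V hfd hV ha κ hκ hS n e he heV
  obtain ⟨F, hF⟩ : ∃ F, F = fixF27 s B := ⟨_, rfl⟩
  have hΓ : Fintype (A ⧸ B.subgroupOf A) := Fintype.ofFinite _
  let σ := sig27 s hn hBA
  let ε := (Subgroup.quotientEquivProdOfLE hBA).symm
  have hε : ∀ q γ, ε (q, γ) = ((q.out * (γ.out : A) : G) : G ⧸ B) := equiv27 hBA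
  have hVF : ∀ x ∈ V, x ∈ fixF27 s B := fun x hx h hh => hV x hx h hh
  have hVF' : V ≤ LinearMap.range (fixF27 s B).val.toLinearMap := fun x hx => ⟨⟨x, hVF x hx⟩, rfl⟩
  let V' : Submodule k (fixF27 s B) := V.comap (fixF27 s B).val.toLinearMap
  have hval : Function.Injective (fixF27 s B).val.toLinearMap := Subtype.val_injective
  have hVm : V'.map (fixF27 s B).val.toLinearMap = V := Submodule.map_comap_eq_of_le hVF'
  have hfr : finrank k V' = finrank k V := by
    rw [← hVm]
    exact (Submodule.equivMapOfInjective _ hval V').finrank_eq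
  have hfd' : FiniteDimensional k V' := by
    have : FiniteDimensional k ↥(V'.map (fixF27 s B).val.toLinearMap) := by rw [hVm]; exact hfd
    exact Module.Finite.equiv (Submodule.equivMapOfInjective _ hval V').symm
  -- independence of the representatives
  have hs : ∀ (g g' : G), (g : G ⧸ B) = g' → ∀ x ∈ V, s g x = s g' x := fun g g' h => map_eq27 s hV h
  have hcc : ∀ v (g g' : G), (g : G ⧸ B) = g' → c v g = c v g' := by
    intro v g g' h
    have h1 : g⁻¹ * g' ∈ B := QuotientGroup.eq.1 h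
    have h2 : g' = g * (g⁻¹ * g') := by group
    rw [h2, hc v g _ h1]
  have hεo : ∀ q γ, ((ε (q, γ)).out : G ⧸ B) = ((q.out * (γ.out : A) : G) : G ⧸ B) := fun q γ => by
    rw [QuotientGroup.out_eq', hε]
  -- the products
  have hprod : ∀ W : Submodule k K, (∀ x ∈ W, ∀ h ∈ B, s h x = x) → ∏ q : G ⧸ B, W.map (s q.out).toLinearMap =
      ∏ q : G ⧸ A, ∏ γ : A ⧸ B.subgroupOf A, W.map (s (q.out * (γ.out : A) : G)).toLinearMap := by
    intro W hW
    rw [← Fintype.prod_prod_type', ← ε.prod_comp]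
    exact Finset.prod_congr rfl fun p _ => map_eq27' s hW (hεo p.1 p.2)
  have hsum : ∀ v, ∑ q : G ⧸ B, c v q.out = ∑ q : G ⧸ A, ∑ γ : A ⧸ B.subgroupOf A, c v (q.out * (γ.out : A)) := by
    intro v
    rw [← Fintype.sum_prod_type', ← ε.sum_comp]
    exact Finset.sum_congr rfl fun p _ => hcc v _ _ (hεo p.1 p.2)
  have hcardΓ : Fintype.card (G ⧸ B) = Fintype.card (G ⧸ A) * Fintype.card (A ⧸ B.subgroupOf A) := by
    rw [← Fintype.card_prod, Fintype.card_congr ε]
  have hcA : 0 < Fintype.card (G ⧸ A) := Fintype.card_pos_iff.2 ⟨((1 : G) : G ⧸ A)⟩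
  -- apply the theorem to the field of invariants
  have hmain := thm_k σ (fun (u : P × (G ⧸ A)) (x : fixF27 s B) => ω u.1 (s u.2.out (x : K)))
    (fun u => {
      mul := fun x y hx hy => by
        show ω u.1 (s u.2.out ((x : K) * y)) = _
        rw [map_mul, (hω u.1).mul _ _ (by simpa using hx) (by simpa using hy)]
      add := fun x y hx hy hxy => by
        show _ ≤ ω u.1 (s u.2.out ((x : K) + y))
        rw [map_add]
        refine (hω u.1).add _ _ (by simpa using hx) (by simpa using hy) ?_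
        rw [← map_add]
        exact (map_ne_zero (s u.2.out)).2 fun h => hxy (Subtype.ext h)
      alg := fun r hr => by
        show ω u.1 (s u.2.out (algebraMap k K r)) = 0
        rw [AlgEquiv.commutes, (hω u.1).alg r hr] })
    (fun u γ => c u.1 (u.2.out * (γ.out : A))) V'
    (fun u γ x hx hx0 => by
      show 0 ≤ ω u.1 (s u.2.out (sig27 s hn hBA γ x : K)) + _
      rw [sig27_out, ss27]
      exact ha u.1 _ x hx fun h => hx0 (Subtype.ext h))
    (κ := Fintype.card (G ⧸ A) * κ) (by positivity)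
    (by
      intro m E' hE' hE's n' z hz hzE
      rcases Nat.eq_zero_or_pos m with rfl | hm
      · rw [pow_zero] at hE'
        have h1 : ∀ u i, ω u.1 (s u.2.out (z u i : K)) = 0 := by
          intro u i
          obtain ⟨r, hr⟩ := Submodule.mem_one.1 (hE' (hzE u i))
          have hr0 : r ≠ 0 := by
            rintro rfl
            rw [map_zero] at hr
            exact (hz u).ne_zero i hr.symm
          rw [← hr]
          show ω u.1 (s u.2.out (algebraMap k K r)) = 0
          rw [AlgEquiv.commutes, (hω u.1).alg r hr0]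
        simp only [h1, Nat.cast_zero, zero_mul, mul_zero, add_zero, Finset.sum_const_zero, le_refl]
      · obtain ⟨E, hE⟩ : ∃ E, E = E'.map (fixF27 s B).val.toLinearMap := ⟨_, rfl⟩
        have hmap : ((∏ γ, V'.map (σ γ).toLinearMap) ^ m).map (fixF27 s B).val.toLinearMap =
            (∏ γ : A ⧸ B.subgroupOf A, V.map (s (γ.out : A)).toLinearMap) ^ m := by
          rw [map_pow27, map_prod27]
          congr 1
          refine Finset.prod_congr rfl fun γ _ => ?_
          rw [← hVm]
          ext x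
          constructor
          · rintro ⟨_, ⟨y, hy, rfl⟩, rfl⟩
            exact ⟨(y : K), ⟨y, hy, rfl⟩, (sig27_out s hn hBA γ y).symm⟩
          · rintro ⟨_, ⟨y, hy, rfl⟩, rfl⟩
            exact ⟨σ γ y, ⟨y, hy, rfl⟩, sig27_out s hn hBA γ y⟩
        have hEle : E ≤ (∏ γ : A ⧸ B.subgroupOf A, V.map (s (γ.out : A)).toLinearMap) ^ m := by
          rw [hE, ← hmap]
          exact Submodule.map_mono hE'
        have hfrE : finrank k E = finrank k E' := by
          rw [hE]
          exact ((Submodule.equivMapOfInjective _ hval E').finrank_eq).symm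
        have hfdE : FiniteDimensional k E := by
          have h1 : FiniteDimensional k ↥((∏ γ : A ⧸ B.subgroupOf A, V.map (s (γ.out : A)).toLinearMap) ^ m) := by
            have h2 : ∀ T : Finset (A ⧸ B.subgroupOf A), (∏ γ ∈ T, V.map (s (γ.out : A)).toLinearMap).FG := by
              intro T
              induction T using Finset.induction_on with
              | empty => rw [Finset.prod_empty, Submodule.one_eq_span]; exact Submodule.fg_span (Set.finite_singleton 1)
              | insert a T ha ih =>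
                rw [Finset.prod_insert ha]
                exact ((Module.Finite.iff_fg.1 hfd).map _).mul ih
            exact Module.Finite.iff_fg.2 ((h2 Finset.univ).pow m)
          exact Submodule.finiteDimensional_of_le hEle
        have hEfix : ∀ x ∈ E, ∀ h ∈ A, s h x = x := by
          rintro x hx h hh
          rw [hE] at hx
          obtain ⟨y, hy, rfl⟩ := hx
          have h1 := congrArg (Subtype.val) (hE's y hy ((⟨h, hh⟩ : A) : A ⧸ B.subgroupOf A))
          exact h1
        have h1 := hA P ω hω (fun v g => m * ∑ γ : A ⧸ B.subgroupOf A, c v (g * (γ.out : A)))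
          (by
            intro v g h hh
            show (m : ℝ) * _ = m * _
            congr 1
            refine Fintype.sum_equiv (MulAction.toPerm (⟨h, hh⟩ : A)) _ _ fun γ => ?_
            refine hcc v _ _ ?_
            have h2 : ((⟨h, hh⟩ * γ.out : A) : A ⧸ B.subgroupOf A) =
                (((MulAction.toPerm (⟨h, hh⟩ : A) γ).out : A) : A ⧸ B.subgroupOf A) := by
              rw [QuotientGroup.out_eq']
              show _ = (⟨h, hh⟩ : A) • γ
              conv_rhs => rw [← QuotientGroup.out_eq' γ]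
              rfl
            have h3 := QuotientGroup.eq.1 h2
            rw [Subgroup.mem_subgroupOf] at h3
            rw [QuotientGroup.eq]
            have h4 : (g * h * ((γ.out : A) : G))⁻¹ * (g * (((MulAction.toPerm (⟨h, hh⟩ : A) γ).out : A) : G)) =
                (((⟨h, hh⟩ * γ.out : A)⁻¹ * (MulAction.toPerm (⟨h, hh⟩ : A) γ).out : A) : G) := by
              rw [Subgroup.coe_mul, Subgroup.coe_inv, Subgroup.coe_mul]
              group
            rw [h4]
            exact h3)
          E hfdE hEfix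
          (by
            intro v g x hx hx0
            have h2 := lev_pow27 ((hω v).comp (s g)) (lev_prod27 ((hω v).comp (s g)) Finset.univ
              (fun γ : A ⧸ B.subgroupOf A => V.map (s (γ.out : A)).toLinearMap) (fun γ => c v (g * (γ.out : A))) (by
                rintro γ - _ ⟨y, hy, rfl⟩
                by_cases hy0 : y = 0
                · left; subst hy0; exact map_zero _
                · right
                  have h3 := ha v (g * (γ.out : A)) y hy hy0
                  show - c v (g * (γ.out : A)) ≤ ω v (s g (s (γ.out : A) y))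
                  rw [ss27]
                  linarith)) m
            rcases h2 (hEle hx) with h3 | h3
            · exact absurd h3 hx0
            · show 0 ≤ ω v (s g x) + m * _
              linarith)
          (m * κ) (by positivity)
          (by
            intro m' E'' hE'' hE''s n'' z'' hz'' hzE''
            have h2 := hS (m * m') E'' (by
              refine hE''.trans ?_
              rw [pow_mul, hprod V (fun x hx h hh => hV x hx h hh), ← Finset.prod_pow (Finset.univ : Finset (G ⧸ A)) m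
                (fun q : G ⧸ A => ∏ γ : A ⧸ B.subgroupOf A, V.map (s (q.out * (γ.out : A) : G)).toLinearMap)]
              refine pow_le_pow_left' (prod_mono27 (k := k) (K := K) Finset.univ
                (fun q : G ⧸ A => E.map (s q.out).toLinearMap) (fun q : G ⧸ A => (∏ γ : A ⧸ B.subgroupOf A,
                  V.map (s (q.out * (γ.out : A) : G)).toLinearMap) ^ m) fun q _ => ?_) m'
              refine (Submodule.map_mono hEle).trans (le_of_eq ?_)
              refine (map_pow27 ((s q.out : K ≃ₐ[k] K) : K →ₐ[k] K) _ m).trans (congrArg (fun W => W ^ m)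
                ((map_prod27 ((s q.out : K ≃ₐ[k] K) : K →ₐ[k] K) _ _).trans (Finset.prod_congr rfl fun γ _ => ?_)))
              ext x
              constructor
              · rintro ⟨_, ⟨y, hy, rfl⟩, rfl⟩
                exact ⟨y, hy, (ss27 s _ _ y).symm⟩
              · rintro ⟨y, hy, rfl⟩
                exact ⟨_, ⟨y, hy, rfl⟩, ss27 s _ _ y⟩) hE''s n'' z'' hz'' hzE''
            refine le_trans (le_of_eq ?_) (h2.trans (le_of_eq ?_))
            · refine Finset.sum_congr rfl fun v _ => Finset.sum_congr rfl fun i _ => ?_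
              rw [hsum v, ← Finset.mul_sum, Nat.cast_mul]
              ring
            · rw [Nat.cast_mul]
              ring)
          (fun v q => n' (v, q)) (fun v q i => (z (v, q) i : K))
          (fun v q => (hz (v, q)).map' _ (LinearMap.ker_eq_bot.2 hval))
          (fun v q i => by rw [hE]; exact ⟨_, hzE (v, q) i, rfl⟩)
        rw [hfrE] at h1
        rw [Fintype.sum_prod_type]
        refine le_trans (le_of_eq ?_) (h1.trans (le_of_eq ?_))
        · rfl
        · ring)
    (fun u γ => n u.1 (ε (u.2, γ))) (fun u γ i => ⟨e u.1 (ε (u.2, γ)) i, hVF _ (heV _ _ _)⟩)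
    (fun u γ => by
      have h1 := he u.1 (ε (u.2, γ))
      exact LinearIndependent.of_comp (fixF27 s B).val.toLinearMap h1)
    (fun u γ i => heV _ _ _)
  rw [hfr, Fintype.sum_prod_type] at hmain
  rw [hcardΓ, Nat.cast_mul]
  refine le_trans (le_of_eq ?_) (hmain.trans (le_of_eq ?_))
  · refine Finset.sum_congr rfl fun v _ => ?_
    rw [← Fintype.sum_prod_type', ← ε.sum_comp]
    refine Finset.sum_congr rfl fun p _ => Finset.sum_congr rfl fun i _ => ?_
    show ω v (s (ε p).out (e v (ε p) i)) + c v (ε p).out =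
      ω v (s p.1.out (sig27 s hn hBA p.2 ⟨e v (ε p) i, _⟩ : K)) + c v (p.1.out * (p.2.out : A))
    rw [sig27_out, ss27, hs _ _ (hεo p.1 p.2) _ (heV _ _ _), hcc v _ _ (hεo p.1 p.2)]
  · ring


private theorem TB_all [CharZero k] [Fintype G] {H : Subgroup G} (hH : H.IsSubnormal) : ∀ [Fintype (G ⧸ H)], TB s H := by
  induction hH with
  | top => intro _; exact TB_top s
  | step H A h_le hSubn hN ih =>
    intro _
    have : Fintype (G ⧸ A) := Fintype.ofFinite _
    exact TB_step s hN h_le ih

private theorem sum_coset27 [Fintype G] (H : Subgroup G) [Fintype (G ⧸ H)] [Fintype H] (f : G → ℝ) :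
    ∑ g, f g = ∑ h : H, ∑ q : G ⧸ H, f (q.out * h) := by
  rw [Finset.sum_comm, ← Fintype.sum_prod_type']
  symm
  refine Fintype.sum_bijective (fun p : (G ⧸ H) × H => p.1.out * (p.2 : G)) ⟨?_, ?_⟩ _ _ fun p => rfl
  · rintro ⟨q, h⟩ ⟨q', h'⟩ e
    have e' : q.out * (h : G) = q'.out * (h' : G) := e
    have e1 : ((q.out * (h : G) : G) : G ⧸ H) = ((q'.out * (h' : G) : G) : G ⧸ H) := by rw [e']
    rw [QuotientGroup.mk_mul_of_mem _ h.2, QuotientGroup.mk_mul_of_mem _ h'.2, QuotientGroup.out_eq',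
      QuotientGroup.out_eq'] at e1
    subst e1
    rw [Prod.mk.injEq]
    exact ⟨rfl, Subtype.ext (mul_left_cancel e')⟩
  · intro g
    refine ⟨((g : G ⧸ H), ⟨((g : G ⧸ H).out)⁻¹ * g, ?_⟩), ?_⟩
    · rw [← QuotientGroup.eq, QuotientGroup.out_eq']
    · show (g : G ⧸ H).out * (((g : G ⧸ H).out)⁻¹ * g) = g
      rw [mul_inv_cancel_left]

theorem thm_t [CharZero k] [Fintype G] {H : Subgroup G} [Fintype (G ⧸ H)] (hH : H.IsSubnormal) {P : Type u} [Fintype P]
    (ω : P → K → ℝ) (hω : ∀ v, RV k (ω v)) (c : P → G → ℝ)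
    (hc : ∀ v g, ∀ h ∈ H, c v (g * h) = c v g) (V : Submodule k K) [FiniteDimensional k V]
    (hV : ∀ x ∈ V, ∀ h ∈ H, s h x = x) (ha : ∀ v g, ∀ x ∈ V, x ≠ 0 → 0 ≤ ω v (s g x) + c v g)
    (hS : ∀ (m : ℕ) (E : Submodule k K), E ≤ (∏ q : G ⧸ H, V.map (s q.out).toLinearMap) ^ m → (∀ z ∈ E, ∀ g, s g z = z) →
      ∀ (n : P → ℕ) (z : ∀ v, Fin (n v) → K), (∀ v, LinearIndependent k (z v)) → (∀ v i, z v i ∈ E) →
        ∑ v, ∑ i, (Nat.card H * ω v (z v i) + m * ∑ g, c v g) ≤ m * finrank k E)
    (n : P → G → ℕ) (e : ∀ v g, Fin (n v g) → K) (he : ∀ v g, LinearIndependent k (e v g)) (heV : ∀ v g i, e v g i ∈ V) :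
    ∑ v, ∑ g, ∑ i, (ω v (s g (e v g i)) + c v g) ≤ H.index * finrank k V := by
  classical
  have : Fintype H := Fintype.ofFinite _
  have hc0 : (0 : ℝ) < Nat.card H := by exact_mod_cast Nat.card_pos
  have hcc : ∀ v, ∑ g, c v g = Nat.card H * ∑ q : G ⧸ H, c v q.out := by
    intro v
    rw [sum_coset27 H (c v)]
    have h1 : ∀ h : H, ∑ q : G ⧸ H, c v (q.out * h) = ∑ q : G ⧸ H, c v q.out := fun h =>
      Finset.sum_congr rfl fun q _ => hc v _ _ h.2
    rw [Finset.sum_congr rfl fun h _ => h1 h, Finset.sum_const, Finset.card_univ, nsmul_eq_mul, Nat.card_eq_fintype_card]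
  have hT := TB_all s hH
  have key : ∀ h : H, ∑ v, ∑ q : G ⧸ H, ∑ i, (ω v (s (q.out * h) (e v (q.out * h) i)) + c v (q.out * h)) ≤
      Fintype.card (G ⧸ H) * (1 / (Nat.card H : ℝ)) * finrank k V := by
    intro h
    have h1 := hT P ω hω c hc V inferInstance hV ha (1 / (Nat.card H : ℝ)) (one_div_pos.2 hc0)
      (by
        intro m E hE hEs n' z hz hzE
        have h2 := hS m E hE hEs n' z hz hzE
        have h3 : ∑ v, ∑ i, (Nat.card H * ω v (z v i) + m * ∑ g, c v g) =
            Nat.card H * ∑ v, ∑ i, (ω v (z v i) + m * ∑ q : G ⧸ H, c v q.out) := by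
          have h4 : ∀ v, ∑ i, (Nat.card H * ω v (z v i) + m * ∑ g, c v g) =
              Nat.card H * ∑ i, (ω v (z v i) + m * ∑ q : G ⧸ H, c v q.out) := by
            intro v
            rw [hcc v]
            generalize (∑ q : G ⧸ H, c v q.out) = T
            rw [Finset.mul_sum]
            exact Finset.sum_congr rfl fun i _ => by ring
          exact (Finset.sum_congr rfl fun v _ => h4 v).trans (Finset.mul_sum _ _ _).symm
        rw [h3] at h2
        rw [one_div_mul_eq_div, div_mul_eq_mul_div, le_div_iff₀ hc0]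
        linarith)
      (fun v q => n v (q.out * h)) (fun v q => e v (q.out * h)) (fun v q => he v _) (fun v q i => heV v _ i)
    refine le_trans (le_of_eq ?_) h1
    refine Finset.sum_congr rfl fun v _ => ?_
    refine Finset.sum_congr rfl fun q _ => ?_
    refine Finset.sum_congr rfl fun i _ => ?_
    have h4 : s (q.out * h) (e v (q.out * h) i) = s q.out (e v (q.out * h) i) := by
      rw [← ss27, hV _ (heV v _ i) _ h.2]
    rw [h4, hc v _ _ h.2]
  have hsum : ∑ v, ∑ g, ∑ i, (ω v (s g (e v g i)) + c v g) =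
      ∑ h : H, ∑ v, ∑ q : G ⧸ H, ∑ i, (ω v (s (q.out * h) (e v (q.out * h) i)) + c v (q.out * h)) := by
    refine (Finset.sum_congr rfl fun v _ => sum_coset27 H (fun g => ∑ i, (ω v (s g (e v g i)) + c v g))).trans ?_
    exact Finset.sum_comm
  rw [hsum]
  refine (Finset.sum_le_sum fun h _ => key h).trans (le_of_eq ?_)
  rw [Finset.sum_const, Finset.card_univ, nsmul_eq_mul, Subgroup.index_eq_card, Nat.card_eq_fintype_card,
    Nat.card_eq_fintype_card]
  have h5 : (Fintype.card H : ℝ) ≠ 0 := by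
    rw [← Nat.card_eq_fintype_card]
    exact hc0.ne'
  field_simp

theorem abs_t [CharZero k] [Fintype G] {H : Subgroup G} [Fintype (G ⧸ H)] (hH : H.IsSubnormal) {P : Type u} [Fintype P]
    (ω : P → K → ℝ) (hω : ∀ v, RV k (ω v)) (c : P → G → ℝ)
    (hc : ∀ v g, ∀ h ∈ H, c v (g * h) = c v g) (V : Submodule k K) [FiniteDimensional k V]
    (hV : ∀ x ∈ V, ∀ h ∈ H, s h x = x) (ha : ∀ v g, ∀ x ∈ V, x ≠ 0 → 0 ≤ ω v (s g x) + c v g)
    (hS : ∀ (m : ℕ) (E : Submodule k K), E ≤ (∏ q : G ⧸ H, V.map (s q.out).toLinearMap) ^ m → (∀ z ∈ E, ∀ g, s g z = z) →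
      ∀ (n : P → ℕ) (z : ∀ v, Fin (n v) → K), (∀ v, LinearIndependent k (z v)) → (∀ v i, z v i ∈ E) →
        ∑ v, ∑ i, (Nat.card H * ω v (z v i) + m * ∑ g, c v g) ≤ m * finrank k E) {N : ℕ} (hN : 0 < N) :
    ∑ v, ∑ g, SN ((hω v).comp (s g)) N (c v g) V ≤ H.index * N * finrank k V := by
  have h1 : ∀ v g, ∃ e : Fin (finrank k V) → K, LinearIndependent k e ∧ (∀ i, e i ∈ V) ∧
      (SN ((hω v).comp (s g)) N (c v g) V : ℝ) ≤ N * ∑ i, (ω v (s g (e i)) + c v g) :=
    fun v g => SN_le ((hω v).comp (s g)) V hN (c v g) (ha v g)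
  choose e he heV he3 using h1
  have h2 := thm_t s hH ω hω c hc V hV ha hS (fun _ _ => finrank k V) e he heV
  have h3 : (∑ v, ∑ g, SN ((hω v).comp (s g)) N (c v g) V : ℝ) ≤ N * (H.index * finrank k V) := by
    refine le_trans ?_ (mul_le_mul_of_nonneg_left h2 (Nat.cast_nonneg N))
    rw [Finset.mul_sum]
    refine Finset.sum_le_sum fun v _ => ?_
    rw [Finset.mul_sum]
    exact Finset.sum_le_sum fun g _ => he3 v g
  have h4 : ∑ v, ∑ g, SN ((hω v).comp (s g)) N (c v g) V ≤ N * (H.index * finrank k V) := by exact_mod_cast h3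
  refine h4.trans (le_of_eq ?_)
  ring

end

end Pool.Agent.SQ
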