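import Pool.Agent.Helper27.TOW.DATAT
import Pool.Agent.Helper4.SQ.Seq

/-!
# SQ, stage 6 (towers), block SEQT: a sequence of points in towers has a subsequence with constant group and constant subnormal subgroup
-/

set_option autoImplicit false

namespace Pool.Agent.SQ

open NumberField Filter Module MvPolynomial
open Pool.Agent.Helper64.Vojta (Pl nv sn above)
open Pool.Agent.V2
open Pool.Agent.Chart (fld dg crd hgt)

universe u

theorem isSubnormal_comap {G G' : Type*} [Group G] [Group G'] (f : G →* G') {H : Subgroup G'} (hH : H.IsSubnormal) :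
    (H.comap f).IsSubnormal := by
  induction hH with
  | top => rw [Subgroup.comap_top]; exact Subgroup.IsSubnormal.top
  | step H K hle hK hN ih =>
    refine Subgroup.IsSubnormal.step _ _ (Subgroup.comap_mono hle) ih ?_
    rw [Subgroup.normal_subgroupOf_iff hle] at hN
    rw [Subgroup.normal_subgroupOf_iff (Subgroup.comap_mono hle)]
    intro h k hh hk
    rw [Subgroup.mem_comap] at hh hk ⊢
    rw [map_mul, map_mul, map_inv]
    exact hN _ _ hh hk

/-- The action of `G` in `QSG` on a finite Galois extension is onto the Galois group. -/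
theorem QSG.surj {k L : Type u} [Field k] [NumberField k] [Field L] [Algebra k L] [FiniteDimensional k L] [IsGalois k L]
    {G : Type*} [Group G] [Fintype G] {s : G →* (L ≃ₐ[k] L)} {N : Pl k → L → ℝ} (h : QSG s N) : Function.Surjective s := by
  rw [← MonoidHom.range_eq_top]
  have h1 : IntermediateField.fixedField s.range = ⊥ := by
    rw [eq_bot_iff]
    intro x hx
    rw [IntermediateField.mem_fixedField_iff] at hx
    obtain ⟨c, hc⟩ := h.fix x fun g => hx (s g) ⟨g, rfl⟩
    rw [IntermediateField.mem_bot]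
    exact ⟨c, hc.symm⟩
  rw [← IntermediateField.fixingSubgroup_fixedField s.range, h1, IntermediateField.fixingSubgroup_bot]

/-- A sequence of points in towers has a subsequence with the same group and the same subnormal subgroup. -/
theorem exists_seq_t {k : Type u} [Field k] [NumberField k] {N r : ℕ} (x : ℕ → Fin (N + 1) → AlgebraicClosure k)
    (h1 : ∀ a, ∃ j, x a j = 1) (hr : ∀ a, InTower r (x a)) :
    ∃ (G : Type) (_ : Group G) (_ : Fintype G) (H : Subgroup G) (φ : ℕ → ℕ), StrictMono φ ∧ H.IsSubnormal ∧ H.index ≤ r ∧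
      ∃ (y : ∀ a, Fin (N + 1) → gal (x (φ a))) (M : ∀ a, Pl k → gal (x (φ a)) → ℝ)
        (s : ∀ a, G →* (gal (x (φ a)) ≃ₐ[k] gal (x (φ a)))),
        (∀ a j, (y a j : AlgebraicClosure k) = x (φ a) j) ∧ (∀ a, QSG (s a) (M a)) ∧
        (∀ a, ∀ h ∈ H, ∀ j, s a h (y a j) = y a j) ∧
        (∀ a, (Fintype.card G : ℝ) * hgt (x (φ a)) = Hg (s a) (M a) (y a)) ∧
        ∀ (a : ℕ) (v : Pl k) (d : ℕ) (f : MvPolynomial (Fin (N + 1)) k), aeval (crd (x (φ a))) f ≠ 0 →
          (Fintype.card G : ℝ) * lamP d f v (x (φ a)) =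
            ∑ g, (d * Real.log (mxn (M a v) fun j => s a g (y a j)) - Real.log (M a v (s a g (aeval (y a) f)))) := by
  classical
  obtain ⟨G, gG, fG, φ, hφ, -, y, M, s, hy, hQ, hH, hlam⟩ :=
    exists_seq_g (r := r.factorial) x h1 fun a => (tow_gal (x a) (hr a)).2
  have key : ∀ a, ∃ H : Subgroup G, H.IsSubnormal ∧ H.index ≤ r ∧ ∀ h ∈ H, ∀ j, s a h (y a j) = y a j := by
    intro a
    obtain ⟨H, h2, h3, h4⟩ := (tow_gal (x (φ a)) (hr (φ a))).1
    have h5 := fing_finDim (x (φ a))
    have h6 := fing_isGalois (x (φ a))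
    refine ⟨H.comap (s a), isSubnormal_comap (s a) h2, ?_, ?_⟩
    · rw [Subgroup.index_comap_of_surjective _ (hQ a).surj]
      exact h3
    · intro h hh j
      refine h4 _ hh _ ?_
      rw [hy a j]
      exact IntermediateField.subset_adjoin _ _ ⟨j, rfl⟩
  choose T hT using key
  obtain ⟨H, hHi⟩ := Finite.exists_infinite_fiber T
  have h2 : ∃ᶠ a in atTop, T a = H := by
    rw [Nat.frequently_atTop_iff_infinite]
    exact Set.infinite_coe_iff.1 hHi
  obtain ⟨ψ, hψ, hψt⟩ := extraction_of_frequently_atTop h2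
  have h3 : H.IsSubnormal ∧ H.index ≤ r := by
    have := hT (ψ 0)
    rw [hψt 0] at this
    exact ⟨this.1, this.2.1⟩
  refine ⟨G, gG, fG, H, fun a => φ (ψ a), hφ.comp hψ, h3.1, h3.2, fun a => y (ψ a), fun a => M (ψ a), fun a => s (ψ a),
    fun a => hy (ψ a), fun a => hQ (ψ a), ?_, fun a => hH (ψ a), fun a => hlam (ψ a)⟩
  intro a h hh j
  have := (hT (ψ a)).2.2
  rw [hψt a] at this
  exact this h hh j

end Pool.Agent.SQ
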