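import Pool.Agent.Helper27.TOW.Defs

/-!
# SQ, stage 6 (towers), block DATAT: the subnormal subgroup of the Galois group of `gal x`
-/

set_option autoImplicit false

namespace Pool.Agent.SQ

open NumberField Filter Module MvPolynomial
open Pool.Agent.Chart (fld dg crd hgt)

universe u

/-- the fixing subgroup of a tower is subnormal -/
private theorem subnormal17 {k : Type u} [Field k] [NumberField k] {F : IntermediateField k (AlgebraicClosure k)}
    (hF : IsTower F) : F.fixingSubgroup.IsSubnormal := by
  obtain ⟨s, E, h0, h1, hE⟩ := hF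
  have key : ∀ i : Fin (s + 1), (E i).fixingSubgroup.IsSubnormal := by
    intro i
    induction i using Fin.induction with
    | zero =>
      rw [h0, IntermediateField.fixingSubgroup_bot]
      exact Subgroup.IsSubnormal.top
    | succ i ih =>
      obtain ⟨hle, hst⟩ := hE i
      refine Subgroup.IsSubnormal.step _ _ (IntermediateField.fixingSubgroup_le hle) ih ?_
      refine ⟨fun a ha g => ?_⟩
      rw [Subgroup.mem_subgroupOf] at ha ⊢
      rw [IntermediateField.mem_fixingSubgroup_iff] at ha ⊢
      intro y hy
      have hg : ∀ z ∈ E i.castSucc, ((g : AlgebraicClosure k ≃ₐ[k] AlgebraicClosure k)⁻¹) z = z :=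
        (IntermediateField.mem_fixingSubgroup_iff _ _).1 (inv_mem g.2)
      have h2 := ha _ (hst _ hg y hy)
      show (g : AlgebraicClosure k ≃ₐ[k] AlgebraicClosure k)
        ((a : AlgebraicClosure k ≃ₐ[k] AlgebraicClosure k) ((g : AlgebraicClosure k ≃ₐ[k] AlgebraicClosure k)⁻¹ y)) = y
      rw [h2]
      exact (g : AlgebraicClosure k ≃ₐ[k] AlgebraicClosure k).apply_symm_apply y
  rw [← h1]
  exact key _

/-- The Galois group of the Galois closure acts faithfully on the embeddings. -/
theorem finrank_gal_le17 {k : Type u} [Field k] [NumberField k] {N : ℕ} (x : Fin N → AlgebraicClosure k) :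
    finrank k (gal x) ≤ (dg x).factorial := by
  classical
  have hF : FiniteDimensional k (fld x) := FiniteDimensional.right ℚ k (fld x)
  have hfd : FiniteDimensional k (gal x) := by
    unfold gal
    infer_instance
  have hgal : IsGalois k (gal x) := by
    unfold gal
    infer_instance
  have hft : Fintype (gal x ≃ₐ[k] gal x) := Fintype.ofFinite _
  have hfa : Fintype (fld x →ₐ[k] gal x) := Fintype.ofFinite _
  -- the action
  let act : (gal x ≃ₐ[k] gal x) → Equiv.Perm (fld x →ₐ[k] gal x) := fun g =>
    { toFun := fun φ => (g : gal x →ₐ[k] gal x).comp φ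
      invFun := fun φ => (g.symm : gal x →ₐ[k] gal x).comp φ
      left_inv := fun φ => AlgHom.ext fun a => g.symm_apply_apply (φ a)
      right_inv := fun φ => AlgHom.ext fun a => g.apply_symm_apply (φ a) }
  have hact : Function.Injective act := by
    intro g g' hgg
    have h1 : ∀ (φ : fld x →ₐ[k] gal x) (a : fld x), g (φ a) = g' (φ a) := by
      intro φ a
      have h2 : act g φ = act g' φ := by rw [hgg]
      exact congrArg (fun ψ : fld x →ₐ[k] gal x => ψ a) h2
    -- the field on which `g` and `g'` agree
    let σ : gal x ≃ₐ[k] gal x := g'⁻¹ * g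
    have h3 : ∀ (φ : fld x →ₐ[k] gal x) (a : fld x), σ (φ a) = φ a := by
      intro φ a
      show g'.symm (g (φ a)) = φ a
      rw [h1, g'.symm_apply_apply]
    let E' : IntermediateField k (gal x) := IntermediateField.fixedField (Subgroup.zpowers σ)
    have h4 : ∀ z : gal x, z ∈ E' ↔ σ z = z := by
      intro z
      constructor
      · intro hz
        exact hz ⟨σ, Subgroup.mem_zpowers σ⟩
      · intro hz
        rintro ⟨τ, hτ⟩
        obtain ⟨n, rfl⟩ := Subgroup.mem_zpowers_iff.1 hτ
        have h5 : σ ∈ MulAction.stabilizer (gal x ≃ₐ[k] gal x) z := hz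
        exact (MulAction.stabilizer (gal x ≃ₐ[k] gal x) z).zpow_mem h5 n
    have h5 : gal x ≤ IntermediateField.lift E' := by
      show IntermediateField.normalClosure k (fld x) (AlgebraicClosure k) ≤ _
      rw [normalClosure_le_iff]
      intro ψ
      rintro _ ⟨a, rfl⟩
      have h6 : ∀ b : fld x, ψ b ∈ gal x := fun b => ψ.fieldRange_le_normalClosure ⟨b, rfl⟩
      let φ : fld x →ₐ[k] gal x := ψ.codRestrict (gal x).toSubalgebra h6
      exact ⟨φ a, (h4 _).2 (h3 φ a), rfl⟩
    have h6 : ∀ z : gal x, σ z = z := by
      intro z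
      obtain ⟨z', hz', hzz⟩ := h5 z.2
      have h7 : z' = z := Subtype.ext hzz
      rw [← h7]
      exact (h4 z').1 hz'
    refine AlgEquiv.ext fun z => ?_
    have h7 := h6 z
    have h8 : g'.symm (g z) = z := h7
    rw [← h8, g'.apply_symm_apply, h8]
  have h1 : Nat.card (gal x ≃ₐ[k] gal x) = finrank k (gal x) := IsGalois.card_aut_eq_finrank k (gal x)
  rw [← h1, Nat.card_eq_fintype_card]
  refine (Fintype.card_le_of_injective act hact).trans ?_
  rw [Fintype.card_perm]
  refine Nat.factorial_le ?_
  rw [← Nat.card_eq_fintype_card]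
  exact card_algHom_le_finrank k (fld x) (gal x)

theorem tow_gal {k : Type u} [Field k] [NumberField k] {r N : ℕ} (x : Fin N → AlgebraicClosure k) (hx : InTower r x) :
    (∃ H : Subgroup (gal x ≃ₐ[k] gal x), H.IsSubnormal ∧ H.index ≤ r ∧
      ∀ h ∈ H, ∀ z : gal x, (z : AlgebraicClosure k) ∈ fld x → h z = z) ∧ finrank k (gal x) ≤ r.factorial := by
  obtain ⟨F, hT, hle, hfd, hr⟩ := hx
  have hF : FiniteDimensional k (fld x) := FiniteDimensional.right ℚ k (fld x)
  have hnorm : Normal k (gal x) := by
    unfold gal
    infer_instance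
  refine ⟨⟨F.fixingSubgroup.map (AlgEquiv.restrictNormalHom (gal x)), ?_, ?_, ?_⟩, ?_⟩
  · exact (subnormal17 hT).map (AlgEquiv.restrictNormalHom_surjective (AlgebraicClosure k))
  · have h1 : F.fixingSubgroup.index = finrank k F :=
      (IntermediateField.finrank_eq_fixingSubgroup_index (AlgebraicClosure k) F).symm
    have h2 : 0 < finrank k F := finrank_pos
    have h3 := F.fixingSubgroup.index_map_dvd
      (AlgEquiv.restrictNormalHom_surjective (F := k) (K₁ := gal x) (AlgebraicClosure k))
    rw [h1] at h3
    exact (Nat.le_of_dvd h2 h3).trans hr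
  · rintro _ ⟨σ, hσ, rfl⟩ z hz
    apply Subtype.ext
    have h1 : algebraMap (gal x) (AlgebraicClosure k) (σ.restrictNormal (gal x) z) = σ (algebraMap (gal x) (AlgebraicClosure k) z) :=
      AlgEquiv.restrictNormal_commutes σ (gal x) z
    have h2 : σ (z : AlgebraicClosure k) = z := (IntermediateField.mem_fixingSubgroup_iff _ _).1 hσ _ (hle hz)
    exact h1.trans h2
  · refine (finrank_gal_le17 x).trans (Nat.factorial_le ?_)
    have h1 : dg x ≤ finrank k F := by
      show finrank k (fld x) ≤ finrank k F
      exact IntermediateField.finrank_le_of_le_right hle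
    exact h1.trans hr

end Pool.Agent.SQ
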