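import Pool.Agent.Helper42.SQ.GDefs2

/-!
# SQ, stage 6 (towers): definitions
-/

set_option autoImplicit false

namespace Pool.Agent.SQ

open NumberField Filter Module MvPolynomial
open Pool.Agent.Chart (fld dg crd hgt)

universe u

/-- `F` is reached from `k` by a chain of Galois extensions. -/
def IsTower {k : Type u} [Field k] [NumberField k] (F : IntermediateField k (AlgebraicClosure k)) : Prop :=
  ∃ (s : ℕ) (E : Fin (s + 1) → IntermediateField k (AlgebraicClosure k)), E 0 = ⊥ ∧ E (Fin.last s) = F ∧
    ∀ i : Fin s, E i.castSucc ≤ E i.succ ∧ ∀ σ : AlgebraicClosure k ≃ₐ[k] AlgebraicClosure k,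
      (∀ y ∈ E i.castSucc, σ y = y) → ∀ y ∈ E i.succ, σ y ∈ E i.succ

/-- The residue field of `x` is contained in a field of degree at most `r` over `k` which is a tower of Galois extensions. -/
def InTower {k : Type u} [Field k] [NumberField k] (r : ℕ) {N : ℕ} (x : Fin N → AlgebraicClosure k) : Prop :=
  ∃ F : IntermediateField k (AlgebraicClosure k), IsTower F ∧ fld x ≤ F ∧ FiniteDimensional k F ∧ finrank k F ≤ r

end Pool.Agent.SQ
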