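import Pool.Agent.Helper27.TOW.Defs
import Pool.Agent.Helper42.SQ.SUBg

/-!
# SQ, stage 6 (towers), block SUBT: the subspace theorem for the invariants, products over `G ⧸ H`
-/

set_option autoImplicit false

namespace Pool.Agent.SQ

open NumberField Filter Module
open Pool.Agent.Helper64.Vojta (Pl nv nv_nonneg nv_mul nv_one nv_zero nv_pos)
open Pool.Agent.V2
open Pool.Agent.QP (vl van Qt sz szf sz_mk sch szf_tendsto)

universe u

variable {k : Type u} [Field k] [NumberField k] {G : Type} [Group G] [Fintype G] {D : SqG k G}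

private theorem Bnd_prod27 (F : GFG D) {κ : Type*} {A : κ → ℕ → Pl k → ℝ} (hA : ∀ g n v, 0 ≤ A g n v)
    (W : κ → Submodule k F.K) (hW : ∀ g, W g ≤ Bndg76 F (A g) (hA g)) (T : Finset κ) :
    ∏ g ∈ T, W g ≤ Bndg76 F (fun n v => ∏ g ∈ T, A g n v) fun n v => Finset.prod_nonneg fun g _ => hA g n v := by
  classical
  induction T using Finset.induction_on with
  | empty =>
    simp only [Finset.prod_empty]
    exact Bnd_oneg76 F
  | insert a T ha ih =>
    rw [Finset.prod_insert ha]
    refine (mul_le_mul' (hW a) ih).trans ((Bnd_mulg76 F (hA a) fun n v => Finset.prod_nonneg fun g _ => hA g n v).trans ?_)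
    intro z hz
    obtain ⟨C, h1, h2, h3⟩ := hz
    refine ⟨C, h1, h2, ?_⟩
    filter_upwards [h3] with n hn v
    rw [Finset.prod_insert ha]
    exact hn v

private theorem sum_cos27 (H : Subgroup G) [Fintype (G ⧸ H)] [Fintype H] (f : G → ℝ) :
    ∑ g, f g = ∑ h : H, ∑ q : G ⧸ H, f (q.out * h) := by
  rw [Finset.sum_comm, ← Fintype.sum_prod_type']
  symm
  refine Fintype.sum_bijective (fun p : (G ⧸ H) × H => p.1.out * (p.2 : G)) ⟨?_, ?_⟩ _ _ fun p => rfl
  · rintro ⟨q, h⟩ ⟨q', h'⟩ e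
    have e' : q.out * (h : G) = q'.out * (h' : G) := e
    have e1 : ((q.out * (h : G) : G) : G ⧸ H) = ((q'.out * (h' : G) : G) : G ⧸ H) := by rw [e']
    rw [QuotientGroup.mk_mul_of_mem _ h.2, QuotientGroup.mk_mul_of_mem _ h'.2, QuotientGroup.out_eq',
      QuotientGroup.out_eq'] at e1
    subst e1
    rw [Prod.mk.injEq]
    exact ⟨rfl, Subtype.ext (mul_left_cancel e')⟩
  · intro g
    refine ⟨((g : G ⧸ H), ⟨((g : G ⧸ H).out)⁻¹ * g, ?_⟩), ?_⟩
    · rw [← QuotientGroup.eq, QuotientGroup.out_eq']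
    · show (g : G ⧸ H).out * (((g : G ⧸ H).out)⁻¹ * g) = g
      rw [mul_inv_cancel_left]

section

variable {H : Subgroup G} [Fintype (G ⧸ H)] (F : GFG D) {ι : Type} [Fintype ι] (x : ∀ n, ι → D.L n) (hx : Ptg D x)

include hx

variable (hxH : ∀ n, ∀ h ∈ H, ∀ j, D.s n h (x n j) = x n j)

include hxH

/-- the sum of the logarithms over `G ⧸ H` -/
private theorem logs27 (n : ℕ) (v : Pl k) :
    ∑ g, Real.log (mxn (D.N n v) fun i => D.s n g (x n i)) =
      Nat.card H * Real.log (∏ q : G ⧸ H, mxn (D.N n v) fun i => D.s n q.out (x n i)) := by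
  classical
  have : Fintype H := Fintype.ofFinite _
  have h2 : ∀ g, 0 < mxn (D.N n v) fun i => D.s n g (x n i) := fun g =>
    zero_lt_one.trans_le (one_le_mxng76 (D.qs n) _ (by
      obtain ⟨j, hj⟩ := hx.1 n
      exact ⟨j, by rw [hj, map_one]⟩) v)
  rw [Real.log_prod fun q _ => (h2 _).ne', sum_cos27 H]
  have h1 : ∀ h : H, ∑ q : G ⧸ H, Real.log (mxn (D.N n v) fun i => D.s n (q.out * h) (x n i)) =
      ∑ q : G ⧸ H, Real.log (mxn (D.N n v) fun i => D.s n q.out (x n i)) := by
    intro h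
    refine Finset.sum_congr rfl fun q _ => ?_
    have e : (fun i => D.s n (q.out * h) (x n i)) = fun i => D.s n q.out (x n i) := by
      funext i
      rw [map_mul]
      show D.s n q.out (D.s n h (x n i)) = _
      rw [hxH n h h.2 i]
    rw [e]
  rw [Finset.sum_congr rfl fun h _ => h1 h, Finset.sum_const, Finset.card_univ, nsmul_eq_mul, Nat.card_eq_fintype_card]

variable (ξ : ι → F.K) (hξ : ∀ j, ∀ᶠ n in (D.U : Filter ℕ), F.rp (ξ j) n = x n j)

include hξ

omit hxH in
private theorem le_Bnd27 (m : ℕ) : ∃ hA, (∏ q : G ⧸ H, (Submodule.span k (Set.range ξ)).map (F.s q.out).toLinearMap) ^ m ≤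
    Bndg76 F (fun n v => (∏ q : G ⧸ H, mxn (D.N n v) fun i => D.s n q.out (x n i)) ^ m) hA := by
  have h2 : ∀ (q : G ⧸ H) n v, 0 ≤ mxn (D.N n v) fun i => D.s n q.out (x n i) := fun q n v =>
    zero_le_one.trans (one_le_mxng76 (D.qs n) _ (by
      obtain ⟨j, hj⟩ := hx.1 n
      exact ⟨j, by rw [hj, map_one]⟩) v)
  have key : ∀ q : G ⧸ H, (Submodule.span k (Set.range ξ)).map (F.s q.out).toLinearMap ≤
      Bndg76 F (fun n v => mxn (D.N n v) fun i => D.s n q.out (x n i)) (h2 q) := by
    intro q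
    rw [Submodule.map_span, Submodule.span_le]
    rintro _ ⟨_, ⟨j, rfl⟩, rfl⟩
    refine ⟨fun _ => 0, FinS.zero, fun _ => le_rfl, ?_⟩
    filter_upwards [hξ j, F.rp_s q.out (ξ j)] with n hn hn' v
    show D.N n v (F.rp (F.s q.out (ξ j)) n) ≤ _
    rw [hn', hn, Real.exp_zero, one_mul]
    exact le_ciSup (f := fun a => D.N n v (D.s n q.out (x n a))) (Set.finite_range _).bddAbove j
  have k2 := Bnd_prod27 F h2 (fun q : G ⧸ H => (Submodule.span k (Set.range ξ)).map (F.s q.out).toLinearMap) key Finset.univ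
  have k3 := Bnd_powg76 F (fun n v => Finset.prod_nonneg fun q _ => h2 q n v) _ k2 m
  exact ⟨_, k3⟩

private theorem datat27 (P : Finset (Pl k)) (m : ℕ) (E : Submodule k F.K)
    (hE : E ≤ (∏ q : G ⧸ H, (Submodule.span k (Set.range ξ)).map (F.s q.out).toLinearMap) ^ m)
    (hEs : ∀ z ∈ E, ∀ g, F.s g z = z) (hE0 : E ≠ ⊥) [FiniteDimensional k E] :
    ∃ (T : Pl k → F.K → ℝ) (B : Pl k → ℝ) (ρ : ℝ),
      (∀ v z, Nat.card H * omg F v z + m * ∑ g, cg D x v g = T v z + B v) ∧ (∀ v, 0 ≤ B v) ∧ ∑ v ∈ P, B v ≤ m - ρ ∧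
      ∀ (n : P → ℕ) (z : ∀ v : P, Fin (n v) → F.K), (∀ v, LinearIndependent k (z v)) → (∀ v i, z v i ∈ E) →
        ∑ v : P, ∑ i, T v (z v i) ≤ ρ * finrank k E := by
  classical
  have hnt : Nontrivial E := Submodule.nontrivial_iff_ne_bot.2 hE0
  have he0 : 0 < finrank k E := finrank_pos
  obtain ⟨κ, hκ⟩ : ∃ κ : ℝ, κ = Nat.card H := ⟨_, rfl⟩
  have hκ0 : 0 < κ := by rw [hκ]; exact_mod_cast Nat.card_pos
  rw [← hκ]
  obtain ⟨e, he⟩ : ∃ e, e = finrank k E := ⟨_, rfl⟩
  rw [← he] at he0 ⊢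
  let b : Basis (Fin e) k E := finBasisOfFinrankEq k E he.symm
  let i0 : Fin e := ⟨0, he0⟩
  let f : Fin e → F.K := fun j => (b j : F.K)
  have hf0 : f i0 ≠ 0 := fun h => b.ne_zero i0 (Subtype.ext h)
  -- the germ `W`
  have hFex : ∃ W : ℕ → Fin e → k, ∀ᶠ n in (D.U : Filter ℕ), ∀ j, F.rp (f j / f i0) n = algebraMap k (D.L n) (W n j) := by
    have h1 : ∀ᶠ n in (D.U : Filter ℕ), ∀ j, ∃ c : k, F.rp (f j / f i0) n = algebraMap k (D.L n) c :=
      Filter.eventually_all.2 fun j => invg76 F fun g => by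
        rw [map_div₀, hEs _ (b j).2, hEs _ (b i0).2]
    refine ⟨fun n j => if h : ∃ c : k, F.rp (f j / f i0) n = algebraMap k (D.L n) c then h.choose else 0, ?_⟩
    filter_upwards [h1] with n hn j
    rw [dif_pos (hn j)]
    exact (hn j).choose_spec
  obtain ⟨W, hF⟩ := hFex
  have ha : ∀ᶠ n in (D.U : Filter ℕ), F.rp (f i0) n ≠ 0 := rp_neg76 F hf0
  have hF1 : ∀ᶠ n in (D.U : Filter ℕ), W n i0 = 1 := by
    filter_upwards [hF, rp_oneg76 F] with n h1 h2
    have h3 := h1 i0
    rw [div_self hf0, h2] at h3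
    exact ((algebraMap k (D.L n)).injective (by rw [← h3, map_one]))
  have hmain : ∀ g : Fin e → k, ∀ᶠ n in (D.U : Filter ℕ),
      F.rp (∑ j, g j • f j) n = algebraMap k (D.L n) (vl g (W n)) * F.rp (f i0) n := by
    intro g
    have h1 : ∑ j, g j • f j = (∑ j, g j • (f j / f i0)) * f i0 := by
      rw [Finset.sum_mul]
      refine Finset.sum_congr rfl fun j _ => ?_
      rw [smul_mul_assoc, div_mul_cancel₀ _ hf0]
    filter_upwards [hF, F.rp_mul (∑ j, g j • (f j / f i0)) (f i0), rp_ling76 F g fun j => f j / f i0] with n h2 h3 h4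
    rw [h1, h3, h4]
    congr 1
    unfold vl
    rw [map_sum]
    refine Finset.sum_congr rfl fun j _ => ?_
    rw [h2 j, map_mul]
  have hsum0 : ∀ g : Fin e → k, ∑ j, g j • f j = 0 → g = 0 := by
    intro g hg
    have h1 : ∑ j, g j • b j = 0 := by
      apply Subtype.ext
      rw [← Submodule.subtype_apply, map_sum]
      simpa using hg
    funext j
    exact Fintype.linearIndependent_iff.1 b.linearIndependent g h1 j
  have hvan : ∀ g : Fin e → k, g ≠ 0 → g ∉ van D.U W := by
    intro g hg h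
    apply hg
    apply hsum0
    apply F.rp_inj
    have h' : ∀ᶠ n in (D.U : Filter ℕ), vl g (W n) = 0 := h
    filter_upwards [hmain g, h', rp_zerog76 F] with n h1 h2 h3
    rw [h1, h2, map_zero, zero_mul, h3]
  -- the bound
  obtain ⟨hA, hle⟩ := le_Bnd27 (H := H) F x hx ξ hξ m
  have hC : ∀ j, ∃ C : Pl k → ℝ, FinS C ∧ (∀ v, 0 ≤ C v) ∧ ∀ᶠ n in (D.U : Filter ℕ), ∀ v,
      D.N n v (F.rp (f j) n) ≤ Real.exp (C v) * (∏ q : G ⧸ H, mxn (D.N n v) fun i => D.s n q.out (x n i)) ^ m :=
    fun j => hle (hE (b j).2)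
  choose C hC1 hC2 hC3 using hC
  have hx2 : ∀ n g, ∃ j, (fun i => D.s n g (x n i)) j = 1 := by
    intro n g
    obtain ⟨j, hj⟩ := hx.1 n
    exact ⟨j, by show D.s n g (x n j) = 1; rw [hj, map_one]⟩
  obtain ⟨C', hC'⟩ : ∃ C' : Pl k → ℝ, C' = fun v => ∑ j, C j v := ⟨_, rfl⟩
  have hC'f : FinS C' := hC' ▸ FinS.sum Finset.univ fun j _ => hC1 j
  have hC'0 : ∀ v, 0 ≤ C' v := by
    intro v
    rw [hC']
    exact Finset.sum_nonneg fun j _ => hC2 j v
  have hC'le : ∀ j v, C j v ≤ C' v := by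
    intro j v
    rw [hC']
    exact Finset.single_le_sum (f := fun j => C j v) (fun j _ => hC2 j v) (Finset.mem_univ j)
  have hgC : 0 ≤ gsum C' := gsum_nonneg hC'0
  let X : ℕ → Pl k → ℝ := fun n v => ∑ g, Real.log (mxn (D.N n v) fun i => D.s n g (x n i))
  let Y : ℕ → Pl k → ℝ := fun n v => Real.log (vn v (W n))
  let Z : ℕ → Pl k → ℝ := fun n v => Real.log (D.N n v (F.rp (f i0) n))
  have hXQ : ∀ n v, X n v = κ * Real.log (∏ q : G ⧸ H, mxn (D.N n v) fun i => D.s n q.out (x n i)) := by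
    intro n v
    rw [hκ]
    exact logs27 x hx hxH n v
  have hFne : ∀ᶠ n in (D.U : Filter ℕ), W n ≠ 0 := by
    filter_upwards [hF1] with n hn h
    rw [h] at hn
    exact zero_ne_one hn
  have hfj : ∀ᶠ n in (D.U : Filter ℕ), ∀ j, F.rp (f j) n = F.rp (f j / f i0) n * F.rp (f i0) n := by
    refine Filter.eventually_all.2 fun j => ?_
    filter_upwards [F.rp_mul (f j / f i0) (f i0)] with n hn
    rw [← hn, div_mul_cancel₀ _ hf0]
  have hR : ∀ᶠ n in (D.U : Filter ℕ), ∀ v, 0 ≤ m * X n v + κ * C' v - κ * Y n v - κ * Z n v := by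
    filter_upwards [Filter.eventually_all.2 hC3, hF, ha, hFne, hfj] with n h1 h2 h3 h4 hj v
    have h5 : ∀ g, 0 < mxn (D.N n v) fun i => D.s n g (x n i) := fun g =>
      zero_lt_one.trans_le (one_le_mxng76 (D.qs n) _ (hx2 n g) v)
    have h6 : 0 < ∏ q : G ⧸ H, mxn (D.N n v) fun i => D.s n q.out (x n i) := Finset.prod_pos fun q _ => h5 _
    have h7 : 0 < D.N n v (F.rp (f i0) n) := (D.qs n).pos v _ h3
    have h8 : vn v (W n) ≤ Real.exp (C' v) * (∏ q : G ⧸ H, mxn (D.N n v) fun i => D.s n q.out (x n i)) ^ m /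
        D.N n v (F.rp (f i0) n) := by
      refine vn_le v _ (by positivity) fun j => ?_
      rw [le_div_iff₀ h7, ← (D.qs n).ext v, ← (D.qs n).mul, ← h2 j, ← hj j]
      exact (h1 j v).trans (mul_le_mul_of_nonneg_right (Real.exp_le_exp.2 (hC'le j v)) (by positivity))
    have h9 := Real.log_le_log (vn_pos v h4) h8
    rw [Real.log_div (by positivity) h7.ne', Real.log_mul (Real.exp_pos _).ne' (by positivity), Real.log_exp,
      Real.log_pow] at h9
    rw [hXQ]
    have h10 : 0 ≤ κ * (C' v + m * Real.log (∏ q : G ⧸ H, mxn (D.N n v) fun i => D.s n q.out (x n i)) -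
        Real.log (D.N n v (F.rp (f i0) n)) - Real.log (vn v (W n))) := mul_nonneg hκ0.le (by linarith)
    show 0 ≤ m * (κ * Real.log (∏ q : G ⧸ H, mxn (D.N n v) fun i => D.s n q.out (x n i))) + κ * C' v -
      κ * Real.log (vn v (W n)) - κ * Real.log (D.N n v (F.rp (f i0) n))
    refine h10.trans (le_of_eq ?_)
    ring
  have hprod : ∀ᶠ n in (D.U : Filter ℕ), gsum (Z n) = 0 := by
    filter_upwards [ha, Filter.eventually_all.2 fun g => F.rp_s g (f i0)] with n h1 h2
    have h4 : ∀ g, D.s n g (F.rp (f i0) n) = F.rp (f i0) n := by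
      intro g
      rw [← h2 g, hEs _ (b i0).2 g]
    have h5 := (D.qs n).prod _ h1
    have h6 : (fun v => ∑ g, Real.log (D.N n v (D.s n g (F.rp (f i0) n)))) =
        fun v => (Fintype.card G : ℝ) * Z n v := by
      funext v
      show _ = (Fintype.card G : ℝ) * Real.log (D.N n v (F.rp (f i0) n))
      rw [Finset.sum_congr rfl fun g _ => by rw [h4 g], Finset.sum_const, Finset.card_univ, nsmul_eq_mul]
    rw [h6, gsum_const_mul] at h5
    have h7 : (Fintype.card G : ℝ) ≠ 0 := by
      have : 0 < Fintype.card G := Fintype.card_pos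
      positivity
    exact (mul_eq_zero.1 h5).resolve_left h7
  have hX : ∀ n, FinS (X n) := fun n => FinS.sum Finset.univ fun g _ => finS_mxng76 (D.qs n) _ (hx2 n g)
  have hXH : ∀ n, gsum (X n) = D.H n := fun n => (hx.2 n).symm
  have hS : ∀ᶠ n in (D.U : Filter ℕ), ∀ Q : Finset (Pl k),
      κ * vH (W n) + ∑ v ∈ Q, (m * X n v + κ * C' v - κ * Y n v - κ * Z n v) ≤ m * D.H n + κ * gsum C' := by
    filter_upwards [hR, hprod, ha, hFne] with n h1 h2 h3 h4 Q
    have hYf : FinS (Y n) := finS_vn h4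
    have hZf : FinS (Z n) := (D.qs n).fin _ h3
    have e1 : (fun v => m * X n v + κ * C' v - κ * Y n v - κ * Z n v) =
        fun v => ((m * X n v + κ * C' v) + -(κ * Y n v)) + -(κ * Z n v) := by
      funext v
      ring
    have hf1 : FinS fun v => ((m * X n v + κ * C' v) + -(κ * Y n v)) + -(κ * Z n v) :=
      ((((hX n).const_mul m).add (hC'f.const_mul κ)).add (hYf.const_mul κ).neg).add (hZf.const_mul κ).neg
    have h5 := sum_le_gsum (e1 ▸ hf1) h1 Q
    have h6 : gsum (fun v => m * X n v + κ * C' v - κ * Y n v - κ * Z n v) =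
        m * D.H n + κ * gsum C' - κ * vH (W n) := by
      rw [e1, gsum_add ((((hX n).const_mul m).add (hC'f.const_mul κ)).add (hYf.const_mul κ).neg) (hZf.const_mul κ).neg,
        gsum_add (((hX n).const_mul m).add (hC'f.const_mul κ)) (hYf.const_mul κ).neg,
        gsum_add ((hX n).const_mul m) (hC'f.const_mul κ), gsum_const_mul, gsum_const_mul,
        gsum_neg, gsum_neg, gsum_const_mul, gsum_const_mul, h2, hXH]
      show _ = m * D.H n + κ * gsum C' - κ * gsum (Y n)
      ring
    rw [h6] at h5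
    linarith
  have hvH : ∀ᶠ n in (D.U : Filter ℕ), κ * vH (W n) ≤ m * D.H n + κ * gsum C' := by
    filter_upwards [hS] with n hn
    have := hn ∅
    rwa [Finset.sum_empty, add_zero] at this
  have hvH0 : ∀ᶠ n in (D.U : Filter ℕ), 0 ≤ vH (W n) := by
    filter_upwards [hFne] with n hn
    exact vH_nonneg hn
  have hY0 : ∀ᶠ n in (D.U : Filter ℕ), ∀ v, 0 ≤ Y n v := by
    filter_upwards [hF1] with n hn v
    have h1 := le_vn v (W n) i0
    rw [hn, nv_one] at h1
    exact Real.log_nonneg h1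
  have hYle : ∀ᶠ n in (D.U : Filter ℕ), ∀ v, Y n v ≤ vH (W n) := by
    filter_upwards [hY0, hFne] with n h1 h2 v
    exact single_le_gsum (finS_vn h2) h1 v
  have hH1 : ∀ᶠ n in (D.U : Filter ℕ), 1 ≤ D.H n := D.H1.eventually_ge_atTop 1
  have hvHb : ∀ᶠ n in (D.U : Filter ℕ), vH (W n) ≤ (m / κ + gsum C') * D.H n := by
    filter_upwards [hvH, hH1] with n h1 h2
    have h3 : vH (W n) ≤ (m * D.H n + κ * gsum C') / κ := by
      rw [le_div_iff₀ hκ0]
      linarith
    have h4 : (m * D.H n + κ * gsum C') / κ = m / κ * D.H n + gsum C' := by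
      field_simp
    rw [h4] at h3
    nlinarith
  -- limits
  obtain ⟨ρ, hρ⟩ := limg76 D.U (fun n => vH (W n) / D.H n) (A := 0) (B := m / κ + gsum C') (by
    filter_upwards [hvHb, hvH0, hH1] with n h1 h2 h3
    refine ⟨by positivity, ?_⟩
    rw [div_le_iff₀ (by linarith)]
    exact h1)
  have hlam : ∀ v, ∃ a, Tendsto (fun n => Y n v / D.H n) (D.U : Filter ℕ) (nhds a) := fun v =>
    limg76 D.U (fun n => Y n v / D.H n) (A := 0) (B := m / κ + gsum C') (by
      filter_upwards [hvHb, hYle, hY0, hH1] with n h1 h2 h4 h3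
      have h5 := h2 v
      have h6 := h4 v
      refine ⟨by positivity, ?_⟩
      rw [div_le_iff₀ (by linarith)]
      exact h5.trans h1)
  choose lam hlam using hlam
  have hρ0 : 0 ≤ ρ := by
    refine ge_of_tendsto hρ ?_
    filter_upwards [hvH0, hH1] with n h1 h2
    positivity
  have hconst : ∀ c : ℝ, Tendsto (fun n => c / D.H n) (D.U : Filter ℕ) (nhds 0) := fun c =>
    tendsto_const_nhds.div_atTop D.H1
  have hBt : ∀ v, Tendsto (fun n => (m * X n v + κ * C' v - κ * Y n v - κ * Z n v) / D.H n) (D.U : Filter ℕ)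
      (nhds (m * ∑ g, cg D x v g - κ * lam v + κ * omg F v (f i0))) := by
    intro v
    have h1 := (((tendsto_finsetSum Finset.univ fun g _ => cg_tendsto x hx v g).const_mul (m : ℝ)).add
      (hconst (κ * C' v))).sub ((hlam v).const_mul κ)
    have h2 := h1.add ((omg_tendsto F v (f i0) hf0).const_mul κ)
    rw [add_zero] at h2
    refine h2.congr' ?_
    filter_upwards [hH1] with n hn
    have hn0 : D.H n ≠ 0 := by positivity
    show (m : ℝ) * (∑ g, Real.log (mxn (D.N n v) fun i => D.s n g (x n i)) / D.H n) +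
      κ * C' v / D.H n - κ * (Y n v / D.H n) + κ * (-Z n v / D.H n) = (m * (∑ g,
        Real.log (mxn (D.N n v) fun i => D.s n g (x n i))) + κ * C' v - κ * Y n v - κ * Z n v) / D.H n
    rw [← Finset.sum_div]
    field_simp
    ring
  refine ⟨fun v z => κ * (omg F v z - omg F v (f i0) + lam v),
    fun v => m * ∑ g, cg D x v g - κ * lam v + κ * omg F v (f i0), κ * ρ, fun v z => by ring, ?_, ?_, ?_⟩
  · intro v
    refine ge_of_tendsto (hBt v) ?_
    filter_upwards [hR, hH1] with n h1 h2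
    have := h1 v
    positivity
  · have h1 : Tendsto (fun n => ∑ v ∈ P, (m * X n v + κ * C' v - κ * Y n v - κ * Z n v) / D.H n) (D.U : Filter ℕ)
        (nhds (∑ v ∈ P, (m * ∑ g, cg D x v g - κ * lam v + κ * omg F v (f i0)))) :=
      tendsto_finsetSum _ fun v _ => hBt v
    have h2 : Tendsto (fun n => (m : ℝ) + κ * gsum C' / D.H n - κ * (vH (W n) / D.H n)) (D.U : Filter ℕ)
        (nhds ((m : ℝ) + 0 - κ * ρ)) := (tendsto_const_nhds.add (hconst _)).sub (hρ.const_mul κ)
    rw [add_zero] at h2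
    refine le_of_tendsto_of_tendsto h1 h2 ?_
    filter_upwards [hS, hH1] with n h3 h4
    have h5 := h3 P
    have h6 : 0 < D.H n := by linarith
    rw [← Finset.sum_div, div_le_iff₀ h6]
    have h7 : ((m : ℝ) + κ * gsum C' / D.H n - κ * (vH (W n) / D.H n)) * D.H n =
        m * D.H n + κ * gsum C' - κ * vH (W n) := by
      field_simp
    rw [h7]
    linarith
  · intro n z hz hzE
    let g : ∀ v : P, Fin (n v) → Fin e → k := fun v i => b.equivFun ⟨z v i, hzE v i⟩
    have hg : ∀ v i, ∑ j, g v i j • f j = z v i := by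
      intro v i
      have h1 := congrArg E.subtype (b.sum_equivFun ⟨z v i, hzE v i⟩)
      rw [map_sum] at h1
      exact h1
    have hg0 : ∀ v i, g v i ≠ 0 := by
      intro v i h
      apply (hz v).ne_zero i
      rw [← hg v i, h]
      simp
    have hTt : ∀ v i, Tendsto (fun l => (Y l v.1 - Real.log (nv v.1 (vl (g v i) (W l)))) / D.H l) (D.U : Filter ℕ)
        (nhds (omg F v.1 (z v i) - omg F v.1 (f i0) + lam v.1)) := by
      intro v i
      have h1 := ((omg_tendsto F v.1 (z v i) ((hz v).ne_zero i)).sub (omg_tendsto F v.1 (f i0) hf0)).add (hlam v.1)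
      refine h1.congr' ?_
      filter_upwards [hmain (g v i), ha, Pool.Agent.QP.not_van D.U W (hvan _ (hg0 v i))] with l h2 h3 h4
      rw [hg v i] at h2
      rw [h2, (D.qs l).mul, (D.qs l).ext, Real.log_mul (nv_pos v.1 h4).ne' ((D.qs l).pos v.1 _ h3).ne']
      ring
    rcases Pool.Agent.Helper16.TP.bdd_vec D.U W i0 hF1 with hH | ⟨y, hy⟩
    · have hT : ∀ v i, omg F v.1 (z v i) - omg F v.1 (f i0) + lam v.1 =
          ρ * sz D.U W v.1 ((van D.U W).mkQ (g v i)) := by
        intro v i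
        rw [sz_mk D.U W hH v.1 _ (hvan _ (hg0 v i))]
        refine tendsto_nhds_unique (hTt v i) ?_
        have h1 := hρ.mul (szf_tendsto D.U W hH v.1 _ (hvan _ (hg0 v i)))
        refine h1.congr' ?_
        filter_upwards [hH.eventually_gt_atTop 0, hH1] with l h2 h3
        have h4 : D.H l ≠ 0 := by positivity
        show vH (W l) / D.H l * ((Y l v.1 - _) / vH (W l)) = _
        field_simp
      have h1 := schg76 D.U W hH P n (fun v i => (van D.U W).mkQ (g v i)) (by
        intro v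
        have hbot : van D.U W = ⊥ := by
          rw [Submodule.eq_bot_iff]
          intro c hc
          by_contra h
          exact hvan c h hc
        have h2 : LinearIndependent k (g v) := by
          have h3 : LinearIndependent k (fun i => (⟨z v i, hzE v i⟩ : E)) :=
            LinearIndependent.of_comp E.subtype (hz v)
          exact h3.map' b.equivFun.toLinearMap (LinearEquiv.ker _)
        exact h2.map' _ (by rw [Submodule.ker_mkQ, hbot]))
      have h2 : finrank k (Qt D.U W) ≤ e := by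
        refine (Submodule.finrank_quotient_le _).trans ?_
        rw [Module.finrank_fin_fun]
      calc ∑ v : P, ∑ i, κ * (omg F v.1 (z v i) - omg F v.1 (f i0) + lam v.1)
          = κ * (ρ * ∑ v : P, ∑ i, sz D.U W v.1 ((van D.U W).mkQ (g v i))) := by
            rw [Finset.mul_sum, Finset.mul_sum]
            refine Finset.sum_congr rfl fun v _ => ?_
            rw [Finset.mul_sum, Finset.mul_sum]
            exact Finset.sum_congr rfl fun i _ => by rw [hT v i]
        _ ≤ κ * (ρ * e) := mul_le_mul_of_nonneg_left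
            (mul_le_mul_of_nonneg_left (h1.trans (by exact_mod_cast h2)) hρ0) hκ0.le
        _ = κ * ρ * e := by ring
    · have hT : ∀ v i, omg F v.1 (z v i) - omg F v.1 (f i0) + lam v.1 = 0 := by
        intro v i
        refine tendsto_nhds_unique (hTt v i) ?_
        refine (hconst (Real.log (vn v.1 y) - Real.log (nv v.1 (vl (g v i) y)))).congr' ?_
        filter_upwards [hy] with l hl
        show _ = (Real.log (vn v.1 (W l)) - Real.log (nv v.1 (vl (g v i) (W l)))) / D.H l
        rw [hl]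
      have h1 : ∑ v : P, ∑ i, κ * (omg F v.1 (z v i) - omg F v.1 (f i0) + lam v.1) = 0 :=
        Finset.sum_eq_zero fun v _ => Finset.sum_eq_zero fun i _ => by rw [hT v i, mul_zero]
      show ∑ v : P, ∑ i, κ * (omg F v.1 (z v i) - omg F v.1 (f i0) + lam v.1) ≤ _
      rw [h1]
      positivity

end

/-! ### SUBt -/

section

variable {H : Subgroup G} [Fintype (G ⧸ H)]

/-- The subspace theorem for the invariants; the spaces are products over `G ⧸ H`. -/
theorem sub_t (F : GFG D) {ι : Type} [Fintype ι] (x : ∀ n, ι → D.L n) (hx : Ptg D x)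
    (hxH : ∀ n, ∀ h ∈ H, ∀ j, D.s n h (x n j) = x n j) (ξ : ι → F.K)
    (hξ : ∀ j, ∀ᶠ n in (D.U : Filter ℕ), F.rp (ξ j) n = x n j) (P : Finset (Pl k)) (m : ℕ) (E : Submodule k F.K)
    (hE : E ≤ (∏ q : G ⧸ H, (Submodule.span k (Set.range ξ)).map (F.s q.out).toLinearMap) ^ m)
    (hEs : ∀ z ∈ E, ∀ g, F.s g z = z) (n : P → ℕ) (z : ∀ v : P, Fin (n v) → F.K) (hz : ∀ v, LinearIndependent k (z v))
    (hzE : ∀ v i, z v i ∈ E) :
    ∑ v : P, ∑ i, (Nat.card H * omg F v (z v i) + m * ∑ g, cg D x v g) ≤ m * finrank k E := by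
  classical
  have hfg0 : ∀ T : Finset (G ⧸ H),
      (∏ q ∈ T, (Submodule.span k (Set.range ξ)).map (F.s q.out).toLinearMap).FG := by
    intro T
    induction T using Finset.induction_on with
    | empty => rw [Finset.prod_empty, Submodule.one_eq_span]; exact Submodule.fg_span (Set.finite_singleton 1)
    | insert a T ha ih =>
      rw [Finset.prod_insert ha]
      exact ((Submodule.fg_span (Set.finite_range ξ)).map _).mul ih
  have hfg : ((∏ q : G ⧸ H, (Submodule.span k (Set.range ξ)).map (F.s q.out).toLinearMap) ^ m).FG :=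
    (hfg0 Finset.univ).pow m
  have hfd1 : FiniteDimensional k
      ↥((∏ q : G ⧸ H, (Submodule.span k (Set.range ξ)).map (F.s q.out).toLinearMap) ^ m) := Module.Finite.iff_fg.2 hfg
  have hfd : FiniteDimensional k E := Submodule.finiteDimensional_of_le hE
  have hn : ∀ v, n v ≤ finrank k E := by
    intro v
    have h3 : LinearIndependent k (fun i => (⟨z v i, hzE v i⟩ : E)) := LinearIndependent.of_comp E.subtype (hz v)
    simpa using h3.fintype_card_le_finrank
  by_cases hE0 : E = ⊥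
  · have h1 : ∀ v, n v = 0 := by
      intro v
      have := hn v
      rw [hE0, finrank_bot] at this
      omega
    have h2 : ∑ v : P, ∑ i, (Nat.card H * omg F v (z v i) + m * ∑ g, cg D x v g) = 0 := by
      refine Finset.sum_eq_zero fun v _ => Finset.sum_eq_zero fun i _ => ?_
      have h2 := i.2
      have h3 := h1 v
      omega
    rw [h2]
    positivity
  obtain ⟨T, B, ρ, h1, h2, h3, h4⟩ := datat27 (H := H) F x hx hxH ξ hξ P m E hE hEs hE0
  have h5 := h4 n z hz hzE
  calc ∑ v : P, ∑ i, (Nat.card H * omg F v (z v i) + m * ∑ g, cg D x v g)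
      = ∑ v : P, ∑ i, T v (z v i) + ∑ v : P, (n v : ℝ) * B v := by
        rw [← Finset.sum_add_distrib]
        refine Finset.sum_congr rfl fun v _ => ?_
        simp only [h1]
        rw [Finset.sum_add_distrib, Finset.sum_const, Finset.card_univ, Fintype.card_fin, nsmul_eq_mul]
    _ ≤ ρ * finrank k E + ∑ v : P, (finrank k E : ℝ) * B v := by
        refine add_le_add h5 (Finset.sum_le_sum fun v _ => ?_)
        exact mul_le_mul_of_nonneg_right (by exact_mod_cast hn v) (h2 v)
    _ = ρ * finrank k E + finrank k E * ∑ v ∈ P, B v := by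
        rw [← Finset.mul_sum, Finset.sum_coe_sort P B]
    _ ≤ ρ * finrank k E + finrank k E * (m - ρ) := by
        have : (0 : ℝ) ≤ finrank k E := Nat.cast_nonneg _
        nlinarith [mul_le_mul_of_nonneg_left h3 this]
    _ = m * finrank k E := by ring

end

end Pool.Agent.SQ
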