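import Pool.Agent.Helper42.SQ.OMg
import Pool.Agent.Helper42.SQ.GERg
import Pool.Agent.Helper42.SQ.FB
import Pool.Agent.Helper42.SQ.LIN
import Pool.Agent.Helper27.TOW.ALG
import Pool.Agent.Helper27.TOW.SUBT

/-!
# SQ, stage 6 (towers), block GABt (helper1): `germsB_t`

As `germsB_g`, for points fixed by a subnormal subgroup `H` of the Galois group: the bound has `H.index` for the order
of the group.
-/

set_option autoImplicit false

namespace Pool.Agent.SQ

open NumberField Filter Module MvPolynomial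
open Pool.Agent.Helper64.Vojta (Pl nv sn above)
open Pool.Agent.V2
open Pool.Agent.Chart (fld dg crd hgt)

universe u

/-- Theorem B for a subnormal subgroup `H` of `G` and a space of invariants of `H` -/
theorem thmB_t {k K : Type u} [Field k] [CharZero k] [Field K] [Algebra k K] {G : Type} [Group G] [Fintype G]
    (s : G →* (K ≃ₐ[k] K)) {H : Subgroup G} [Fintype (G ⧸ H)] (hH : H.IsSubnormal) {P : Type u} [Fintype P]
    (ω : P → K → ℝ) (hω : ∀ v, RV k (ω v)) (c : P → G → ℝ) (hc : ∀ v g, ∀ h ∈ H, c v (g * h) = c v g)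
    (V : Submodule k K) [FiniteDimensional k V] (hV : ∀ x ∈ V, ∀ h ∈ H, s h x = x)
    (ha : ∀ v g, ∀ x ∈ V, x ≠ 0 → 0 ≤ ω v (s g x) + c v g)
    (hS : ∀ (m : ℕ) (E : Submodule k K), E ≤ (∏ q : G ⧸ H, V.map (s q.out).toLinearMap) ^ m → (∀ z ∈ E, ∀ g, s g z = z) →
      ∀ (n : P → ℕ) (z : ∀ v, Fin (n v) → K), (∀ v, LinearIndependent k (z v)) → (∀ v i, z v i ∈ E) →
        ∑ v, ∑ i, (Nat.card H * ω v (z v i) + m * ∑ g, c v g) ≤ m * finrank k E)
    (h1 : ∀ v g, ∃ x ∈ V, x ≠ 0 ∧ ω v (s g x) + c v g = 0)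
    (hpf : ∀ x ∈ V, x ≠ 0 → ∑ v, ∑ g, (ω v (s g x) + c v g) ≤ 1)
    {q p : ℕ} (L : Fin q → V) (hL : ∀ i, L i ≠ 0) (hC : Comb k L p) :
    ∑ v, ∑ g, ∑ i, (ω v (s g (L i)) + c v g) ≤ H.index * finrank k V + 2 * p := by
  have hN : ∀ N : ℕ, 0 < N → ∑ v, ∑ g, SN ((hω v).comp (s g)) N (c v g) V ≤ H.index * N * finrank k V :=
    fun N hN0 => abs_t s hH ω hω c hc V hV ha hS hN0
  have hO : ∀ i : P × G, RV k ((fun (i : P × G) (x : K) => ω i.1 (s i.2 x)) i) := fun i => (hω i.1).comp (s i.2)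
  have key : ∀ N : ℕ, 0 < N → ∑ v, ∑ g, ∑ i, (ω v (s g (L i)) + c v g) ≤
      H.index * finrank k V + 2 * p + (Fintype.card (P × G) * q) / N := by
    intro N hN0
    have hN' : (0 : ℝ) < N := by exact_mod_cast hN0
    have h3 := FB_comb_sum (fun (i : P × G) (x : K) => ω i.1 (s i.2 x)) hO (fun i => c i.1 i.2) V
      (fun i x hx hx0 => ha i.1 i.2 x hx hx0) (fun i => h1 i.1 i.2)
      (by
        intro x hx hx0
        rw [Fintype.sum_prod_type]
        exact hpf x hx hx0) L hL hC hN0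
    rw [Fintype.sum_prod_type, Fintype.sum_prod_type] at h3
    have h5 : (∑ v, ∑ g, (SN ((hω v).comp (s g)) N (c v g) V : ℝ)) ≤ H.index * N * finrank k V := by
      exact_mod_cast hN N hN0
    have h8 : (∑ v, ∑ g, (SN (hO (v, g)) N (c v g) V : ℝ)) / N ≤ H.index * finrank k V := by
      rw [div_le_iff₀ hN']
      refine le_trans (le_of_eq rfl) (h5.trans (le_of_eq ?_))
      ring
    linarith
  refine le_of_forall_pos_le_add fun ε hε => ?_
  obtain ⟨N, hN1⟩ := exists_nat_gt ((Fintype.card (P × G) * q : ℝ) / ε)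
  have hN' : (0 : ℝ) < N := lt_of_le_of_lt (by positivity) hN1
  have h9 : (Fintype.card (P × G) * q : ℝ) / N ≤ ε := by
    rw [div_le_iff₀ hN']
    rw [div_lt_iff₀ hε] at hN1
    linarith
  have := key N (by exact_mod_cast hN')
  linarith

/-- The theorem for the germs of a sequence of points which are fixed by the subnormal subgroup `H`, with the combinatorial
condition on the forms. -/
theorem germsB_t {k : Type u} [Field k] [NumberField k] {G : Type} [Group G] [Fintype G] {D : SqG k G} {H : Subgroup G}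
    [Fintype (G ⧸ H)] (hH : H.IsSubnormal) {n : ℕ} (x : ∀ a, Fin (n + 1) → D.L a) (hx : Ptg D x)
    (hxH : ∀ a, ∀ h ∈ H, ∀ j, D.s a h (x a j) = x a j) {q : ℕ} (l : Fin q → Fin (n + 1) → k) (hl : ∀ i, l i ∉ vang D x)
    (hC : Comb k (fun i => (vang D x).mkQ (l i)) (finrank k (vang D x))) (P : Finset (Pl k)) {ε : ℝ} (hε : 0 < ε) :
    ∀ᶠ a in (D.U : Filter ℕ), ∑ v ∈ P, ∑ g, ∑ i, (Real.log (mxn (D.N a v) fun j => D.s a g (x a j)) -
      Real.log (D.N a v (D.s a g (lvg (l i) (x a))))) ≤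
      (H.index * finrank k ((Fin (n + 1) → k) ⧸ vang D x) + 2 * finrank k (vang D x) + ε) * D.H a := by
  obtain ⟨F⟩ := ger_g D
  obtain ⟨ξ, hξ⟩ := exists_xig F x hx
  set Θ : (Fin (n + 1) → k) →ₗ[k] F.K := Fintype.linearCombination k ξ with hΘdef
  have hΘ : ∀ m, Θ m = ∑ j, m j • ξ j := fun m => Fintype.linearCombination_apply k ξ m
  have hrange : LinearMap.range Θ = Submodule.span k (Set.range ξ) := Fintype.range_linearCombination k ξ
  have hrp0 : ∀ᶠ a in (D.U : Filter ℕ), F.rp 0 a = 0 := by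
    filter_upwards [F.rp_alg 0] with a ha
    rw [map_zero, map_zero] at ha
    exact ha
  have hker : LinearMap.ker Θ = vang D x := by
    ext m
    have h1 := rp_lvg F x hx ξ hξ m
    rw [← hΘ] at h1
    rw [LinearMap.mem_ker]
    constructor
    · intro h2
      rw [h2] at h1
      show ∀ᶠ a in (D.U : Filter ℕ), lvg m (x a) = 0
      filter_upwards [h1, hrp0] with a h3 h4
      rw [← h3, h4]
    · intro h2
      refine F.rp_inj _ _ ?_
      have h3 : ∀ᶠ a in (D.U : Filter ℕ), lvg m (x a) = 0 := h2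
      filter_upwards [h1, hrp0, h3] with a h4 h5 h6
      rw [h4, h5, h6]
  have hcinv : ∀ (v : Pl k) (g : G), ∀ h ∈ H, cg D x v (g * h) = cg D x v g := by
    intro v g h hh
    unfold cg
    congr 1
    funext a
    congr 3
    funext j
    rw [map_mul, AlgEquiv.mul_apply, hxH a h hh j]
  have hvinv : ∀ z ∈ Submodule.span k (Set.range ξ), ∀ h ∈ H, F.s h z = z := by
    intro z hz h hh
    induction hz using Submodule.span_induction with
    | mem z hz =>
      obtain ⟨j, rfl⟩ := hz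
      refine F.rp_inj _ _ ?_
      filter_upwards [F.rp_s h (ξ j), hξ j] with a h1 h2
      rw [h1, h2, hxH a h hh j]
    | zero => exact map_zero _
    | add a b _ _ ha hb => rw [map_add, ha, hb]
    | smul c a _ ha => rw [map_smul, ha]
  set V := Submodule.span k (Set.range ξ) with hV
  have : FiniteDimensional k V := FiniteDimensional.span_of_finite k (Set.finite_range ξ)
  let e : ((Fin (n + 1) → k) ⧸ vang D x) ≃ₗ[k] V :=
    (Submodule.quotEquivOfEq _ _ hker.symm) ≪≫ₗ Θ.quotKerEquivRange ≪≫ₗ LinearEquiv.ofEq _ _ hrange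
  have he : ∀ m, ((e ((vang D x).mkQ m) : V) : F.K) = ∑ j, m j • ξ j := fun m => hΘ m
  have hL : ∀ i, e ((vang D x).mkQ (l i)) ≠ 0 := by
    intro i h
    rw [LinearEquiv.map_eq_zero_iff, Submodule.mkQ_apply, Submodule.Quotient.mk_eq_zero] at h
    exact hl i h
  have key := thmB_t F.s hH (P := P) (fun v => omg F v) (fun v => omg_RV F v) (fun v g => cg D x v g)
    (fun v g h hh => hcinv v g h hh) V hvinv
    (fun v g z hz hz0 => omg_nonneg F x hx ξ hξ v g z hz hz0)
    (fun m E hE hEs N z hz hzE => sub_t F x hx hxH ξ hξ P m E hE hEs N z hz hzE)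
    (fun v g => by
      obtain ⟨z, h1, h2, h3⟩ := omg_attained F x hx ξ hξ v g
      exact ⟨z, h1, h2, h3⟩)
    (fun z hz hz0 => by
      have h1 := omg_prod F x hx ξ hξ P z hz hz0
      rw [← Finset.sum_coe_sort P (fun v => ∑ g, (omg F v (F.s g z) + cg D x v g))] at h1
      exact h1)
    (fun i => e ((vang D x).mkQ (l i))) hL (Comb.map e hC)
  have key' : ∑ v ∈ P, ∑ g, ∑ i, (omg F v (F.s g (e ((vang D x).mkQ (l i)) : V)) + cg D x v g) ≤
      H.index * finrank k ((Fin (n + 1) → k) ⧸ vang D x) + 2 * finrank k (vang D x) := by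
    rw [e.finrank_eq, ← Finset.sum_coe_sort P
      (fun v => ∑ g, ∑ i, (omg F v (F.s g (e ((vang D x).mkQ (l i)) : V)) + cg D x v g))]
    exact key
  have hlim : ∀ (v : Pl k) (g : G) (i : Fin q), Tendsto (fun a => (Real.log (mxn (D.N a v) fun j => D.s a g (x a j)) -
      Real.log (D.N a v (D.s a g (lvg (l i) (x a))))) / D.H a) (D.U : Filter ℕ)
      (nhds (omg F v (F.s g (e ((vang D x).mkQ (l i)) : V)) + cg D x v g)) := by
    intro v g i
    have h0 : F.s g ((e ((vang D x).mkQ (l i)) : V) : F.K) ≠ 0 := by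
      rw [Ne, EmbeddingLike.map_eq_zero_iff, Submodule.coe_eq_zero]
      exact hL i
    have h1 := (omg_tendsto F v _ h0).add (cg_tendsto x hx v g)
    refine h1.congr' ?_
    have h2 := rp_lvg F x hx ξ hξ (l i)
    rw [← he] at h2
    filter_upwards [h2, F.rp_s g ((e ((vang D x).mkQ (l i)) : V) : F.K)] with a h3 h4
    rw [h4, h3]
    ring
  have hsum : Tendsto (fun a => ∑ v ∈ P, ∑ g, ∑ i, (Real.log (mxn (D.N a v) fun j => D.s a g (x a j)) -
      Real.log (D.N a v (D.s a g (lvg (l i) (x a))))) / D.H a) (D.U : Filter ℕ)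
      (nhds (∑ v ∈ P, ∑ g, ∑ i, (omg F v (F.s g (e ((vang D x).mkQ (l i)) : V)) + cg D x v g))) :=
    tendsto_finsetSum _ fun v _ => tendsto_finsetSum _ fun g _ => tendsto_finsetSum _ fun i _ => hlim v g i
  have hlt : ∑ v ∈ P, ∑ g, ∑ i, (omg F v (F.s g (e ((vang D x).mkQ (l i)) : V)) + cg D x v g) <
      H.index * finrank k ((Fin (n + 1) → k) ⧸ vang D x) + 2 * finrank k (vang D x) + ε := by linarith
  filter_upwards [hsum.eventually (gt_mem_nhds hlt), D.H1.eventually (eventually_gt_atTop 0)] with a h1 h2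
  have h3 : ∑ v ∈ P, ∑ g, ∑ i, (Real.log (mxn (D.N a v) fun j => D.s a g (x a j)) -
      Real.log (D.N a v (D.s a g (lvg (l i) (x a))))) / D.H a = (∑ v ∈ P, ∑ g, ∑ i, (Real.log (mxn (D.N a v) fun j =>
      D.s a g (x a j)) - Real.log (D.N a v (D.s a g (lvg (l i) (x a)))))) / D.H a := by
    simp only [Finset.sum_div]
  rw [h3, div_lt_iff₀ h2] at h1
  exact h1.le

end Pool.Agent.SQ
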