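import Pool.Agent.Helper42.SQ.GDefs2
import Pool.Agent.Helper21.V2.BA
import Pool.Agent.Helper27.TOW.GAT

/-!
# SQ, stage 6 (towers), block VERT: the monomials of degree `δ`
-/

set_option autoImplicit false
set_option linter.unusedSectionVars false

namespace Pool.Agent.SQ

open NumberField Filter Module MvPolynomial
open Pool.Agent.Helper64.Vojta (Pl nv sn above)
open Pool.Agent.V2
open Pool.Agent.Chart (fld dg crd hgt)

universe u

/-- the monomials of degree `δ` -/
private abbrev verM (N δ : ℕ) : Type := ↥(Finset.finsuppAntidiag (Finset.univ : Finset (Fin (N + 1))) δ)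

private theorem verM_sum {N δ : ℕ} (s : verM N δ) : ∑ j, s.1 j = δ := (Finset.mem_finsuppAntidiag.1 s.2).1

/-- the values of the monomials -/
private noncomputable def verY {L : Type*} [Field L] {N δ : ℕ} (x : Fin (N + 1) → L) (s : verM N δ) : L :=
  ∏ j, x j ^ s.1 j

private noncomputable def verP (N δ : ℕ) (j : Fin (N + 1)) : verM N δ :=
  ⟨Finsupp.single j δ, by
    classical
    rw [Finset.mem_finsuppAntidiag]
    refine ⟨?_, Finset.subset_univ _⟩
    simp [Finsupp.single_apply]⟩

private theorem verY_P {L : Type*} [Field L] {N δ : ℕ} (x : Fin (N + 1) → L) (j : Fin (N + 1)) :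
    verY x (verP N δ j) = x j ^ δ := by
  classical
  unfold verY verP
  rw [Finset.prod_eq_single j]
  · simp
  · intro b _ hb
    rw [Finsupp.single_eq_of_ne hb, pow_zero]
  · intro h; exact absurd (Finset.mem_univ _) h

section

variable {k : Type u} [Field k] [NumberField k] {G : Type*} [Group G] [Fintype G]
variable {L : Type u} [Field L] [Algebra k L] {s : G →* (L ≃ₐ[k] L)} {N : Pl k → L → ℝ}

private theorem ver_one (h : QSG s N) (v : Pl k) : N v 1 = 1 := by
  have h1 := h.mul v 1 1
  rw [mul_one] at h1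
  have h2 := h.pos v 1 one_ne_zero
  have : N v 1 * (N v 1 - 1) = 0 := by linarith
  rcases mul_eq_zero.1 this with h3 | h3
  · exact absurd h3 h2.ne'
  · linarith

private theorem ver_nonneg (h : QSG s N) (v : Pl k) (x : L) : 0 ≤ N v x := by
  by_cases hx : x = 0
  · rw [hx, h.zero]
  · exact (h.pos v x hx).le

private theorem ver_pow (h : QSG s N) (v : Pl k) (x : L) (n : ℕ) : N v (x ^ n) = N v x ^ n := by
  induction n with
  | zero => rw [pow_zero, pow_zero, ver_one h]
  | succ n ih => rw [pow_succ, pow_succ, h.mul, ih]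

private theorem ver_prod (h : QSG s N) (v : Pl k) {ι : Type*} (t : Finset ι) (f : ι → L) :
    N v (∏ i ∈ t, f i) = ∏ i ∈ t, N v (f i) := by
  classical
  induction t using Finset.induction_on with
  | empty => rw [Finset.prod_empty, Finset.prod_empty, ver_one h]
  | insert a t ha ih => rw [Finset.prod_insert ha, Finset.prod_insert ha, h.mul, ih]

private theorem ver_mxn (h : QSG s N) (v : Pl k) {m δ : ℕ} (X : Fin (m + 1) → L) :
    mxn (N v) (verY (δ := δ) X) = mxn (N v) X ^ δ := by
  have hb : ∀ j, N v (X j) ≤ mxn (N v) X := fun j => le_ciSup (Set.finite_range fun a => N v (X a)).bddAbove j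
  obtain ⟨j0, hj0⟩ := exists_eq_ciSup_of_finite (f := fun a => N v (X a))
  have : Nonempty (verM m δ) := ⟨verP m δ 0⟩
  apply le_antisymm
  · refine ciSup_le fun t => ?_
    unfold verY
    rw [ver_prod h]
    calc ∏ j, N v (X j ^ t.1 j) ≤ ∏ j, (mxn (N v) X) ^ t.1 j := by
          refine Finset.prod_le_prod (fun j _ => ver_nonneg h _ _) fun j _ => ?_
          rw [ver_pow h]
          exact pow_le_pow_left₀ (ver_nonneg h _ _) (hb j) _
      _ = mxn (N v) X ^ δ := by rw [Finset.prod_pow_eq_pow_sum, verM_sum]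
  · have h1 : N v (verY X (verP m δ j0)) ≤ mxn (N v) (verY (δ := δ) X) :=
      le_ciSup (Set.finite_range fun a => N v (verY (δ := δ) X a)).bddAbove _
    rw [verY_P, ver_pow h] at h1
    have h2 : N v (X j0) = mxn (N v) X := hj0
    rwa [h2] at h1

private theorem verY_map {m δ : ℕ} (X : Fin (m + 1) → L) (g : G) :
    (fun t => s g (verY (δ := δ) X t)) = verY fun j => s g (X j) := by
  funext t
  unfold verY
  rw [map_prod]
  exact Finset.prod_congr rfl fun j _ => map_pow _ _ _

end

section

variable {k : Type u} [Field k]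

/-- the polynomial with given coefficients -/
private noncomputable def verL (k : Type u) [Field k] (N δ : ℕ) : (verM N δ → k) →ₗ[k] MvPolynomial (Fin (N + 1)) k :=
  ∑ t : verM N δ, (monomial t.1) ∘ₗ LinearMap.proj t

private theorem verL_apply {N δ : ℕ} (m : verM N δ → k) : verL k N δ m = ∑ t, monomial t.1 (m t) := by
  unfold verL
  rw [LinearMap.sum_apply]
  rfl

private theorem aeval_verL {L : Type*} [Field L] [Algebra k L] {N δ : ℕ} (x : Fin (N + 1) → L) (m : verM N δ → k) :
    aeval x (verL k N δ m) = lvg m (verY x) := by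
  rw [verL_apply, map_sum]
  unfold lvg
  refine Finset.sum_congr rfl fun t _ => ?_
  rw [aeval_monomial]
  congr 1
  unfold verY
  exact Finsupp.prod_fintype _ _ fun i => pow_zero _

private theorem verL_coeff {N δ : ℕ} (p : MvPolynomial (Fin (N + 1)) k) (hp : p.IsHomogeneous δ) :
    verL k N δ (fun t => coeff t.1 p) = p := by
  classical
  rw [verL_apply]
  ext d
  rw [coeff_sum]
  simp only [coeff_monomial]
  by_cases hd : ∑ j, d j = δ
  · have hd' : d ∈ Finset.finsuppAntidiag (Finset.univ : Finset (Fin (N + 1))) δ :=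
      Finset.mem_finsuppAntidiag.2 ⟨hd, Finset.subset_univ _⟩
    rw [Finset.sum_eq_single (⟨d, hd'⟩ : verM N δ)]
    · simp
    · intro b _ hb
      rw [if_neg]
      intro h
      exact hb (Subtype.ext h)
    · intro h; exact absurd (Finset.mem_univ _) h
  · have h1 : coeff d p = 0 := by
      refine hp.coeff_eq_zero ?_
      rw [Finsupp.degree_eq_sum]
      exact hd
    rw [h1]
    refine Finset.sum_eq_zero fun t _ => ?_
    rw [if_neg]
    intro h
    exact hd (by rw [← h]; exact verM_sum t)

private theorem verL_homog {N δ : ℕ} (m : verM N δ → k) : (verL k N δ m).IsHomogeneous δ := by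
  rw [verL_apply]
  refine IsHomogeneous.sum _ _ _ fun t _ => ?_
  refine isHomogeneous_monomial _ ?_
  rw [Finsupp.degree_eq_sum]
  exact verM_sum t

private theorem verL_range {N δ : ℕ} : LinearMap.range (verL k N δ) = homogeneousSubmodule (Fin (N + 1)) k δ := by
  ext p
  rw [mem_homogeneousSubmodule]
  constructor
  · rintro ⟨m, rfl⟩; exact verL_homog m
  · intro hp; exact ⟨_, verL_coeff p hp⟩

end

section

variable {k : Type u} [Field k] [NumberField k] {G : Type} [Group G] [Fintype G]

variable {D : SqG k G} {H : Subgroup G} [Fintype (G ⧸ H)] (hH : H.IsSubnormal)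

include hH

/-- `germs_t` for the monomials of degree `δ` -/
theorem ver_t {N δ : ℕ} (hδ : 0 < δ) (x : ∀ n, Fin (N + 1) → D.L n) (hx : Ptg D x)
    (hxH : ∀ n, ∀ h ∈ H, ∀ j, D.s n h (x n j) = x n j) (P : Finset (Pl k)) (n : Pl k → G → ℕ)
    (e : ∀ v g, Fin (n v g) → MvPolynomial (Fin (N + 1)) k) (hh : ∀ v g i, (e v g i).IsHomogeneous δ)
    (he : ∀ v ∈ P, ∀ g, LinearIndependent k fun i => Ideal.Quotient.mk (vanI D x) (e v g i)) {ε : ℝ} (hε : 0 < ε) :
    ∀ᶠ a in (D.U : Filter ℕ), ∑ v ∈ P, ∑ g, ∑ i, (δ * Real.log (mxn (D.N a v) fun j => D.s a g (x a j)) -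
      Real.log (D.N a v (D.s a g (aeval (x a) (e v g i))))) ≤
      (H.index * hilb (vanI D x) δ * δ + ε) * D.H a := by
  have hδ' : (0 : ℝ) < δ := by exact_mod_cast hδ
  let D' : SqG k G :=
    { U := D.U, L := D.L, fL := D.fL, aL := D.aL, s := D.s, N := D.N, qs := D.qs, H := fun a => δ * D.H a,
      H1 := D.H1.const_mul_atTop hδ' }
  let y : ∀ n, verM N δ → D'.L n := fun a => verY (x a)
  have hlog : ∀ a v g, Real.log (mxn (D.N a v) fun t => D.s a g (verY (δ := δ) (x a) t)) =
      δ * Real.log (mxn (D.N a v) fun j => D.s a g (x a j)) := by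
    intro a v g
    rw [verY_map, ver_mxn (D.qs a), Real.log_pow]
  have hy : Ptg D' y := by
    refine ⟨fun a => ?_, fun a => ?_⟩
    · obtain ⟨j, hj⟩ := hx.1 a
      refine ⟨verP N δ j, ?_⟩
      show verY (x a) _ = 1
      rw [verY_P, hj, one_pow]
    · show δ * D.H a = gsum fun v => ∑ g, Real.log (mxn (D.N a v) fun t => D.s a g (verY (δ := δ) (x a) t))
      rw [hx.2 a]
      unfold Hg
      rw [← gsum_const_mul]
      congr 1
      funext v
      rw [Finset.mul_sum]
      exact Finset.sum_congr rfl fun g _ => (hlog a v g).symm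
  let T : (verM N δ → k) →ₗ[k] (MvPolynomial (Fin (N + 1)) k ⧸ vanI D x) :=
    (Ideal.Quotient.mkₐ k (vanI D x)).toLinearMap ∘ₗ verL k N δ
  have hker : LinearMap.ker T = vang D' y := by
    ext m
    rw [LinearMap.mem_ker]
    have h1 : T m = Ideal.Quotient.mk (vanI D x) (verL k N δ m) := rfl
    rw [h1, Ideal.Quotient.eq_zero_iff_mem]
    show (∀ᶠ a in (D.U : Filter ℕ), aeval (x a) (verL k N δ m) = 0) ↔ ∀ᶠ a in (D.U : Filter ℕ), lvg m (verY (x a)) = 0
    simp only [aeval_verL]
  have hrange : LinearMap.range T = (homogeneousSubmodule (Fin (N + 1)) k δ).map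
      (Ideal.Quotient.mkₐ k (vanI D x)).toLinearMap := by
    rw [LinearMap.range_comp, verL_range]
  have hfin : finrank k ((verM N δ → k) ⧸ vang D' y) = hilb (vanI D x) δ := by
    rw [← hker]
    have h1 := (LinearMap.quotKerEquivRange T).finrank_eq
    rw [h1, hrange]
    rfl
  have hind : ∀ v ∈ P, ∀ g, LinearIndependent k fun i => (vang D' y).mkQ (fun t => coeff t.1 (e v g i)) := by
    intro v hv g
    have hle : vang D' y ≤ LinearMap.ker T := by rw [hker]
    refine LinearIndependent.of_comp ((vang D' y).liftQ T hle) ?_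
    have h1 : (((vang D' y).liftQ T hle) ∘ fun i => (vang D' y).mkQ (fun t => coeff t.1 (e v g i))) =
        fun i => Ideal.Quotient.mk (vanI D x) (e v g i) := by
      funext i
      show (vang D' y).liftQ T hle ((vang D' y).mkQ _) = _
      rw [Submodule.mkQ_apply, Submodule.liftQ_apply]
      show Ideal.Quotient.mk (vanI D x) (verL k N δ _) = _
      rw [verL_coeff _ (hh v g i)]
    rw [h1]
    exact he v hv g
  have hyH : ∀ a, ∀ h ∈ H, ∀ t, D'.s a h (y a t) = y a t := by
    intro a h hh' t
    have h1 := congrFun (verY_map (s := D.s a) (δ := δ) (x a) h) t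
    have h2 : (fun j => D.s a h (x a j)) = x a := funext fun j => hxH a h hh' j
    rw [h2] at h1
    exact h1
  have key := germs_t (D := D') hH y hy hyH P n (fun v g i t => coeff t.1 (e v g i)) hind (ε := ε / δ) (div_pos hε hδ')
  rw [hfin] at key
  have key' : ∀ᶠ a in (D.U : Filter ℕ), ∑ v ∈ P, ∑ g, ∑ i, (Real.log (mxn (D.N a v) fun t => D.s a g (verY (x a) t)) -
      Real.log (D.N a v (D.s a g (lvg (fun t : verM N δ => coeff t.1 (e v g i)) (verY (x a)))))) ≤
      (H.index * hilb (vanI D x) δ + ε / δ) * (δ * D.H a) := key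
  filter_upwards [key'] with a ha
  have e1 : ∀ v g i, Real.log (mxn (D.N a v) fun t => D.s a g (verY (δ := δ) (x a) t)) -
      Real.log (D.N a v (D.s a g (lvg (fun t : verM N δ => coeff t.1 (e v g i)) (verY (x a))))) =
      δ * Real.log (mxn (D.N a v) fun j => D.s a g (x a j)) - Real.log (D.N a v (D.s a g (aeval (x a) (e v g i)))) := by
    intro v g i
    rw [hlog, ← aeval_verL, verL_coeff _ (hh v g i)]
  simp only [e1] at ha
  refine ha.trans (le_of_eq ?_)
  field_simp

end

end Pool.Agent.SQ
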