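import Pool.Agent.Helper27.TOW.SEQT
import Pool.Agent.Helper42.SQ.FINX
import Pool.Agent.Helper27.TOW.VERT

/-!
# SQ, stage 6 (towers), block FINXT: points in towers of a projective variety
-/

set_option autoImplicit false

namespace Pool.Agent.SQ

open NumberField Filter Module MvPolynomial
open Pool.Agent.Helper64.Vojta (Pl nv sn above)
open Pool.Agent.V2
open Pool.Agent.Chart (fld dg crd hgt)

universe u

section

variable {k : Type u} [Field k] [NumberField k]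

/-- As `fin_xv`, for the points whose residue field is contained in a tower of Galois extensions of degree at most `r`. -/
theorem fin_xvt {N n d q r : ℕ} (hd : 0 < d) (hq : n + 1 ≤ q) (I : Ideal (MvPolynomial (Fin (N + 1)) k))
    [I.IsPrime] (hI : ∀ p ∈ I, ∀ m, homogeneousComponent m p ∈ I)
    (hdim : Algebra.trdeg k (MvPolynomial (Fin (N + 1)) k ⧸ I) = n + 1) (S : Finset (Pl k))
    (f : Pl k → Fin q → MvPolynomial (Fin (N + 1)) k) (hf : ∀ v ∈ S, ∀ i, (f v i).IsHomogeneous d)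
    (hgp : ∀ v ∈ S, ∀ J : Finset (Fin q), J.card = n + 1 → ∀ x : Fin (N + 1) → AlgebraicClosure k, (∀ p ∈ I, aeval x p = 0) →
      (∀ i ∈ J, aeval x (f v i) = 0) → x = 0) {ε : ℝ} (hε : 0 < ε) :
    ∃ (Q : MvPolynomial (Fin (N + 1)) k) (C : ℝ), Q ∉ I ∧ (∃ e, Q.IsHomogeneous e) ∧
      ∀ x : Fin (N + 1) → AlgebraicClosure k, (∃ j, x j = 1) → (∀ p ∈ I, aeval x p = 0) → InTower r x →
        (∀ v ∈ S, ∀ i, aeval (crd x) (f v i) ≠ 0) → aeval x Q ≠ 0 →
        ∑ ν ∈ S, ∑ i, lamP d (f ν i) ν x ≤ (r * (n + 1) * d + ε) * hgt x + C := by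
  classical
  by_contra hcon
  obtain ⟨P, x, hPd, hx1, hxI, hxr, hxf, hxQ, hxv⟩ := bad23 (R := fun x => InTower r x) hcon
  obtain ⟨G, gG, fG, H, φ, hφ, hHs, hHr, y, M, s, hy, hQ, hfix, hH, hl⟩ := exists_seq_t x hx1 hxr
  have hfq : Fintype (G ⧸ H) := Fintype.ofFinite _
  have hid : ∀ m, m ≤ φ m := fun m => hφ.le_apply
  refine main23 (H := H) (hyperfilter ℕ) Nat.hyperfilter_le_atTop (w := H.index)
    (Nat.pos_of_ne_zero Subgroup.FiniteIndex.index_ne_zero) ?_ hd hq I hI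
    hdim S f hf hgp hε hHr (fun m => P (φ m)) ?_ (fun m => x (φ m)) (fun m => hx1 _) (fun m => hxI _) (fun m => hxf _)
    (fun m => hxQ _) ?_ (Eventually.of_forall fun m => ⟨y m, M m, s m, hy m, hQ m, hH m, hfix m, hl m⟩)
  · intro D x hx hxH δ hδ P n e hh he ε hε
    exact ver_t hHs hδ x hx hxH P n e hh he hε
  · intro p hp hpI
    obtain ⟨m0, hm0⟩ := hPd p hp hpI
    exact ⟨m0, fun m hm => hm0 _ (hm.trans (hid m))⟩
  · intro m
    have h1 := hxv (φ m)
    have h2 : (m : ℝ) ≤ φ m := by exact_mod_cast hid m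
    linarith

/-- As `fin_x`, for the points whose residue field is contained in a tower of Galois extensions of degree at most `r`. -/
theorem fin_x_t {N n d q r : ℕ} (hd : 0 < d) (I : Ideal (MvPolynomial (Fin (N + 1)) k))
    [I.IsPrime] (hI : ∀ p ∈ I, ∀ m, homogeneousComponent m p ∈ I)
    (hdim : Algebra.trdeg k (MvPolynomial (Fin (N + 1)) k ⧸ I) = n + 1)
    (f : Fin q → MvPolynomial (Fin (N + 1)) k) (hf : ∀ i, (f i).IsHomogeneous d)
    (hgp : ∀ J : Finset (Fin q), J.card = n + 1 → ∀ x : Fin (N + 1) → AlgebraicClosure k, (∀ p ∈ I, aeval x p = 0) →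
      (∀ i ∈ J, aeval x (f i) = 0) → x = 0) (S : Finset (Pl k)) {ε : ℝ} (hε : 0 < ε) :
    ∃ (Q : MvPolynomial (Fin (N + 1)) k) (C : ℝ), Q ∉ I ∧ (∃ e, Q.IsHomogeneous e) ∧
      ∀ x : Fin (N + 1) → AlgebraicClosure k, (∃ j, x j = 1) → (∀ p ∈ I, aeval x p = 0) → InTower r x →
        (∀ i, aeval (crd x) (f i) ≠ 0) → aeval x Q ≠ 0 →
        ∑ ν ∈ S, ∑ i, lamP d (f i) ν x ≤ (r * (n + 1) * d + ε) * hgt x + C := by
  classical
  by_cases hq : n + 1 ≤ q
  · obtain ⟨Q, C, hQ, hQh, h⟩ := fin_xvt (r := r) hd hq I hI hdim S (fun _ => f) (fun _ _ => hf) (fun _ _ => hgp) hε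
    exact ⟨Q, C, hQ, hQh, fun x h1 h2 h3 h4 h5 => h x h1 h2 h3 (fun _ _ => h4) h5⟩
  · obtain ⟨C, hC⟩ := liouN23 r.factorial f hf S
    refine ⟨1, C, fun h => (‹I.IsPrime›).ne_top ((Ideal.eq_top_iff_one I).2 h), ⟨0, isHomogeneous_one _ _⟩,
      fun x h1 h2 h3 h4 _ => ?_⟩
    obtain ⟨hh, h5⟩ := hC x h1 (tow_gal x h3).2 h4
    refine h5.trans (add_le_add ?_ le_rfl)
    have h8 : 1 ≤ r := by
      obtain ⟨F, -, -, h6, h7⟩ := h3
      have : 0 < finrank k F := finrank_pos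
      omega
    have h9 : (q : ℝ) ≤ n + 1 := by exact_mod_cast (by omega : q ≤ n + 1)
    have h10 : (1 : ℝ) ≤ r := by exact_mod_cast h8
    refine mul_le_mul_of_nonneg_right ?_ hh
    have h11 : (q : ℝ) * d ≤ r * (n + 1) * d := by
      refine mul_le_mul_of_nonneg_right ?_ (Nat.cast_nonneg _)
      nlinarith
    linarith

end

end Pool.Agent.SQ
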