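import Pool.Agent.Helper27.TOW.Defs
import Pool.Agent.Helper42.SQ.LIN

/-!
# SQ, stage 6 (towers): statements (do not import; copy your statement into `Pool/Agent/Helper27/TOW/<BLOCK>.lean`)
-/

set_option autoImplicit false

namespace Pool.Agent.SQ

open NumberField Filter Module MvPolynomial
open Pool.Agent.Helper64.Vojta (Pl nv sn above)
open Pool.Agent.V2
open Pool.Agent.Chart (fld dg crd hgt)

universe u

/-! ### ALG (helper27): Theorem A for a subnormal subgroup `H` of `G` and `V` in the invariants of `H` -/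

section

variable {k K : Type u} [Field k] [CharZero k] [Field K] [Algebra k K] {G : Type} [Group G] [Fintype G]
  (s : G →* (K ≃ₐ[k] K)) {H : Subgroup G} [Fintype (G ⧸ H)] (hH : H.IsSubnormal)

theorem thm_t {P : Type u} [Fintype P] (ω : P → K → ℝ) (hω : ∀ v, RV k (ω v)) (c : P → G → ℝ)
    (hc : ∀ v g, ∀ h ∈ H, c v (g * h) = c v g) (V : Submodule k K) [FiniteDimensional k V]
    (hV : ∀ x ∈ V, ∀ h ∈ H, s h x = x) (ha : ∀ v g, ∀ x ∈ V, x ≠ 0 → 0 ≤ ω v (s g x) + c v g)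
    (hS : ∀ (m : ℕ) (E : Submodule k K), E ≤ (∏ q : G ⧸ H, V.map (s q.out).toLinearMap) ^ m → (∀ z ∈ E, ∀ g, s g z = z) →
      ∀ (n : P → ℕ) (z : ∀ v, Fin (n v) → K), (∀ v, LinearIndependent k (z v)) → (∀ v i, z v i ∈ E) →
        ∑ v, ∑ i, (Nat.card H * ω v (z v i) + m * ∑ g, c v g) ≤ m * finrank k E)
    (n : P → G → ℕ) (e : ∀ v g, Fin (n v g) → K) (he : ∀ v g, LinearIndependent k (e v g)) (heV : ∀ v g i, e v g i ∈ V) :
    ∑ v, ∑ g, ∑ i, (ω v (s g (e v g i)) + c v g) ≤ H.index * finrank k V := sorry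

theorem abs_t {P : Type u} [Fintype P] (ω : P → K → ℝ) (hω : ∀ v, RV k (ω v)) (c : P → G → ℝ)
    (hc : ∀ v g, ∀ h ∈ H, c v (g * h) = c v g) (V : Submodule k K) [FiniteDimensional k V]
    (hV : ∀ x ∈ V, ∀ h ∈ H, s h x = x) (ha : ∀ v g, ∀ x ∈ V, x ≠ 0 → 0 ≤ ω v (s g x) + c v g)
    (hS : ∀ (m : ℕ) (E : Submodule k K), E ≤ (∏ q : G ⧸ H, V.map (s q.out).toLinearMap) ^ m → (∀ z ∈ E, ∀ g, s g z = z) →
      ∀ (n : P → ℕ) (z : ∀ v, Fin (n v) → K), (∀ v, LinearIndependent k (z v)) → (∀ v i, z v i ∈ E) →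
        ∑ v, ∑ i, (Nat.card H * ω v (z v i) + m * ∑ g, c v g) ≤ m * finrank k E) {N : ℕ} (hN : 0 < N) :
    ∑ v, ∑ g, SN ((hω v).comp (s g)) N (c v g) V ≤ H.index * N * finrank k V := sorry

end

section

variable {k : Type u} [Field k] [NumberField k] {G : Type} [Group G] [Fintype G] {D : SqG k G} {H : Subgroup G}
  [Fintype (G ⧸ H)]

/-! ### SUBt (as sub_g; only the product is over `G ⧸ H`) -/

theorem sub_t (F : GFG D) {ι : Type} [Fintype ι] (x : ∀ n, ι → D.L n) (hx : Ptg D x)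
    (hxH : ∀ n, ∀ h ∈ H, ∀ j, D.s n h (x n j) = x n j) (ξ : ι → F.K)
    (hξ : ∀ j, ∀ᶠ n in (D.U : Filter ℕ), F.rp (ξ j) n = x n j) (P : Finset (Pl k)) (m : ℕ) (E : Submodule k F.K)
    (hE : E ≤ (∏ q : G ⧸ H, (Submodule.span k (Set.range ξ)).map (F.s q.out).toLinearMap) ^ m)
    (hEs : ∀ z ∈ E, ∀ g, F.s g z = z) (n : P → ℕ) (z : ∀ v : P, Fin (n v) → F.K) (hz : ∀ v, LinearIndependent k (z v))
    (hzE : ∀ v i, z v i ∈ E) :
    ∑ v : P, ∑ i, (Nat.card H * omg F v (z v i) + m * ∑ g, cg D x v g) ≤ m * finrank k E := sorry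

/-! ### GAt, GABt, VERt: as germs_g, germsB_g, ver with `H.index` for `Fintype.card G` -/

variable (hH : H.IsSubnormal)

theorem germs_t {ι : Type} [Fintype ι] (x : ∀ n, ι → D.L n) (hx : Ptg D x)
    (hxH : ∀ n, ∀ h ∈ H, ∀ j, D.s n h (x n j) = x n j) (P : Finset (Pl k)) (n : Pl k → G → ℕ)
    (e : ∀ v g, Fin (n v g) → ι → k)
    (he : ∀ v ∈ P, ∀ g, LinearIndependent k fun i => (vang D x).mkQ (e v g i)) {ε : ℝ} (hε : 0 < ε) :
    ∀ᶠ a in (D.U : Filter ℕ), ∑ v ∈ P, ∑ g, ∑ i, (Real.log (mxn (D.N a v) fun j => D.s a g (x a j)) -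
      Real.log (D.N a v (D.s a g (lvg (e v g i) (x a))))) ≤
      (H.index * finrank k ((ι → k) ⧸ vang D x) + ε) * D.H a := sorry

theorem germsB_t {n : ℕ} (x : ∀ a, Fin (n + 1) → D.L a) (hx : Ptg D x)
    (hxH : ∀ a, ∀ h ∈ H, ∀ j, D.s a h (x a j) = x a j) {q : ℕ} (l : Fin q → Fin (n + 1) → k) (hl : ∀ i, l i ∉ vang D x)
    (hC : Comb k (fun i => (vang D x).mkQ (l i)) (finrank k (vang D x))) (P : Finset (Pl k)) {ε : ℝ} (hε : 0 < ε) :
    ∀ᶠ a in (D.U : Filter ℕ), ∑ v ∈ P, ∑ g, ∑ i, (Real.log (mxn (D.N a v) fun j => D.s a g (x a j)) -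
      Real.log (D.N a v (D.s a g (lvg (l i) (x a))))) ≤
      (H.index * finrank k ((Fin (n + 1) → k) ⧸ vang D x) + 2 * finrank k (vang D x) + ε) * D.H a := sorry

theorem ver_t {N δ : ℕ} (hδ : 0 < δ) (x : ∀ n, Fin (N + 1) → D.L n) (hx : Ptg D x)
    (hxH : ∀ n, ∀ h ∈ H, ∀ j, D.s n h (x n j) = x n j) (P : Finset (Pl k)) (n : Pl k → G → ℕ)
    (e : ∀ v g, Fin (n v g) → MvPolynomial (Fin (N + 1)) k) (hh : ∀ v g i, (e v g i).IsHomogeneous δ)
    (he : ∀ v ∈ P, ∀ g, LinearIndependent k fun i => Ideal.Quotient.mk (vanI D x) (e v g i)) {ε : ℝ} (hε : 0 < ε) :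
    ∀ᶠ a in (D.U : Filter ℕ), ∑ v ∈ P, ∑ g, ∑ i, (δ * Real.log (mxn (D.N a v) fun j => D.s a g (x a j)) -
      Real.log (D.N a v (D.s a g (aeval (x a) (e v g i))))) ≤
      (H.index * hilb (vanI D x) δ * δ + ε) * D.H a := sorry

end

/-! ### DATAt: the subgroup `H` of the Galois group of `gal x` (use the image under restriction of the subgroups of the
automorphisms of the algebraic closure which fix the fields of the chain) -/

theorem tow_gal {k : Type u} [Field k] [NumberField k] {r N : ℕ} (x : Fin N → AlgebraicClosure k) (hx : InTower r x) :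
    (∃ H : Subgroup (gal x ≃ₐ[k] gal x), H.IsSubnormal ∧ H.index ≤ r ∧
      ∀ h ∈ H, ∀ z : gal x, (z : AlgebraicClosure k) ∈ fld x → h z = z) ∧ finrank k (gal x) ≤ r.factorial := sorry

end Pool.Agent.SQ
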